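import Pool.Agent.Helper48.KC.Trdeg

/-! Subfields of finitely generated fields. -/

set_option autoImplicit false

namespace Pool.Agent.Helper48.KC

open IntermediateField Cardinal

variable {Ω K : Type} [Field Ω] [Field K] [Algebra Ω K]

/-- a subfield over which a finitely generated field is algebraic -/
theorem fg_of_algebraic (hK : (⊤ : IntermediateField Ω K).FG) (M : IntermediateField Ω K)
    (hM : Algebra.IsAlgebraic M K) : M.FG := by
  have e1 : Algebra.EssFiniteType Ω K := IntermediateField.fg_top_iff.1 hK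
  obtain ⟨s, hs⟩ := exists_isTranscendenceBasis Ω M
  have halg := hs.isAlgebraic_field
  rw [Subtype.range_coe] at halg
  have hfin : s.Finite := by
    obtain ⟨t, ht⟩ := hK
    have h1 : Algebra.trdeg Ω K ≤ #(t : Set K) := by
      refine trdeg_le_of_alg (t : Set K) fun k => ?_
      have h2 : k ∈ adjoin Ω (t : Set K) := by
        rw [ht]
        exact mem_top
      exact isAlgebraic_algebraMap (⟨k, h2⟩ : adjoin Ω (t : Set K))
    have h2 : #s ≤ Algebra.trdeg Ω K := by
      rw [hs.cardinalMk_eq_trdeg]
      exact trdeg_le_of_injective M.val M.val.injective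
    exact lt_aleph0_iff_set_finite.1 ((h2.trans h1).trans_lt
      (lt_aleph0_iff_set_finite.2 t.finite_toSet))
  obtain ⟨u, hu⟩ : ∃ u : Set K, u = M.val '' s := ⟨_, rfl⟩
  obtain ⟨B, hB⟩ : ∃ B : IntermediateField Ω K, B = adjoin Ω u := ⟨_, rfl⟩
  have hBM : B ≤ M := by
    rw [hB, hu, adjoin_le_iff]
    rintro _ ⟨m, -, rfl⟩
    exact m.2
  have hBK : Algebra.IsAlgebraic B K := by
    let A := algebraicClosure B K
    have h1 : ∀ m : M, (m : K) ∈ A := fun m => by
      refine mem_algebraicClosure_iff.2 ?_
      have h2 := isAlgebraic_image M.val s m (halg.isAlgebraic m)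
      rw [← hu, ← hB] at h2
      exact h2
    refine ⟨fun k => ?_⟩
    obtain ⟨p, hp, hp0⟩ := hM.isAlgebraic k
    let ρ : M →+* A := (algebraMap M K).codRestrict A h1
    have h3 : IsAlgebraic A k := by
      refine ⟨p.map ρ, (Polynomial.map_ne_zero_iff ρ.injective).2 hp, ?_⟩
      rw [Polynomial.aeval_def, Polynomial.eval₂_map]
      exact hp0
    exact h3.restrictScalars B
  have e2 : Algebra.EssFiniteType B K := Algebra.EssFiniteType.of_comp Ω B K
  have e3 : Module.Finite B K := Algebra.finite_of_essFiniteType_of_isAlgebraic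
  have e4 : (extendScalars hBM).FG := fg_of_noetherian _
  obtain ⟨t, ht⟩ := e4
  obtain ⟨C, hC⟩ : ∃ C : IntermediateField Ω K, C = adjoin Ω (u ∪ (t : Set K)) := ⟨_, rfl⟩
  have hBC : B ≤ C := by
    rw [hB, hC]
    exact adjoin.mono _ _ _ Set.subset_union_left
  have htC : ∀ z ∈ (t : Set K), z ∈ C := fun z hz => by
    rw [hC]
    exact subset_adjoin _ _ (Or.inr hz)
  have h5 : M = C := by
    refine le_antisymm ?_ ?_
    · intro m hm
      have h6 : m ∈ adjoin B (t : Set K) := by
        rw [ht]
        exact (mem_extendScalars hBM).2 hm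
      have h7 : adjoin B (t : Set K) ≤ extendScalars hBC := by
        rw [adjoin_le_iff]
        intro z hz
        exact (mem_extendScalars hBC).2 (htC z hz)
      exact (mem_extendScalars hBC).1 (h7 h6)
    · rw [hC, adjoin_le_iff]
      rintro z (hz | hz)
      · rw [hu] at hz
        obtain ⟨m, -, rfl⟩ := hz
        exact m.2
      · have h6 : z ∈ adjoin B (t : Set K) := subset_adjoin _ _ hz
        rw [ht] at h6
        exact (mem_extendScalars hBM).1 h6
  rw [h5, hC]
  refine fg_adjoin_of_finite ?_
  rw [hu]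
  exact (hfin.image _).union t.finite_toSet

end Pool.Agent.Helper48.KC
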