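import Pool.Agent.Helper48.KC.Sum

/-! The hypersurfaces `F₁ + ⋯ + Fₘ = 0` in weighted projective spaces. -/

set_option autoImplicit false

namespace Pool.Agent.Helper48.KC

open IntermediateField Cardinal

variable {Ω : Type} [Field Ω] {Q : ∀ (K : Type) [Field K] [Algebra Ω K], Prop}

/-- a quasi-homogeneous polynomial vanishes at a point with a coordinate `1` of weight one -/
theorem trdeg_add_two_le {E ι : Type} [Field E] [Algebra Ω E] [Fintype ι] (Y : ι → E) (j : ι)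
    (hj : Y j = 1) {F : MvPolynomial ι Ω} {p : ι → ℕ} {d : ℕ} (hpj : p j = 1)
    (hF : F.IsWeightedHomogeneous p d) (hF0 : F ≠ 0) (h : MvPolynomial.aeval Y F = 0) :
    Algebra.trdeg Ω (adjoin Ω (Set.range Y)) + 2 ≤ #ι := by
  classical
  let Y' : {i // i ≠ j} → E := fun i => Y i
  let φ : ι → MvPolynomial {i // i ≠ j} Ω := fun i =>
    if hi : i = j then 1 else MvPolynomial.X ⟨i, hi⟩
  have hφ : ∀ {A : Type} [CommRing A] [Algebra Ω A] (Z : ι → A), Z j = 1 →
      MvPolynomial.aeval (fun i : {i // i ≠ j} => Z i) (MvPolynomial.aeval φ F) =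
        MvPolynomial.aeval Z F := by
    intro A _ _ Z hZ
    rw [MvPolynomial.comp_aeval_apply]
    congr 1
    congr 1
    funext i
    by_cases hi : i = j
    · subst hi
      simp [φ, hZ]
    · simp [φ, hi]
  have h1 : MvPolynomial.aeval φ F ≠ 0 := by
    intro h0
    let L := FractionRing (MvPolynomial ι Ω)
    let x : ι → L := fun i => algebraMap (MvPolynomial ι Ω) L (MvPolynomial.X i)
    have hx : MvPolynomial.aeval x F ≠ 0 := by
      have e1 : MvPolynomial.aeval x F = algebraMap (MvPolynomial ι Ω) L F := by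
        have e2 := MvPolynomial.comp_aeval_apply (f := (MvPolynomial.X : ι → MvPolynomial ι Ω))
          (IsScalarTower.toAlgHom Ω (MvPolynomial ι Ω) L) F
        rw [MvPolynomial.aeval_X_left_apply] at e2
        exact e2.symm
      rw [e1]
      intro h2
      exact hF0 ((IsFractionRing.injective (MvPolynomial ι Ω) L) (h2.trans (map_zero _).symm))
    have hxj : x j ≠ 0 := by
      intro h2
      exact MvPolynomial.X_ne_zero j
        ((IsFractionRing.injective (MvPolynomial ι Ω) L) (h2.trans (map_zero _).symm))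
    have e3 := weighted_eval hF (x j) (fun i => x i / x j ^ p i)
    have e4 : (fun i => x j ^ p i * (x i / x j ^ p i)) = x := funext fun i => by
      rw [mul_div_cancel₀ _ (pow_ne_zero _ hxj)]
    have e5 := hφ (fun i => x i / x j ^ p i) (by
      show x j / x j ^ p j = 1
      rw [hpj, pow_one, div_self hxj])
    rw [h0, map_zero] at e5
    rw [e4, ← e5, mul_zero] at e3
    exact hx e3
  have h2 := trdeg_add_one_le Y' (MvPolynomial.aeval φ F) h1 (by rw [hφ Y hj, h])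
  have h3 : adjoin Ω (Set.range Y) = adjoin Ω (Set.range Y') := by
    refine le_antisymm ?_ ?_
    · rw [adjoin_le_iff]
      rintro _ ⟨i, rfl⟩
      by_cases hi : i = j
      · subst hi
        rw [hj]
        exact one_mem _
      · exact subset_adjoin _ _ ⟨⟨i, hi⟩, rfl⟩
    · rw [adjoin_le_iff]
      rintro _ ⟨i, rfl⟩
      exact subset_adjoin _ _ ⟨i, rfl⟩
  rw [h3]
  have h4 : #{i // i ≠ j} + 1 = #ι := by
    rw [mk_fintype, mk_fintype]
    have h5 : Fintype.card {i // i ≠ j} = Fintype.card ι - 1 := by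
      rw [Fintype.card_subtype_compl, Fintype.card_subtype_eq]
    have h6 : 0 < Fintype.card ι := Fintype.card_pos_iff.2 ⟨j⟩
    have h7 : Fintype.card {i // i ≠ j} + 1 = Fintype.card ι := by omega
    exact_mod_cast h7
  rw [← h4]
  calc Algebra.trdeg Ω (adjoin Ω (Set.range Y')) + 2
      = Algebra.trdeg Ω (adjoin Ω (Set.range Y')) + 1 + 1 := by
        rw [add_assoc, one_add_one_eq_two]
    _ ≤ #{i // i ≠ j} + 1 := by gcongr

theorem projective' (hQ : Closed Ω Q) {ι₁ ι₂ : Type} [Fintype ι₁] [Fintype ι₂] [IsAlgClosed Ω]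
    {F₁ : MvPolynomial ι₁ Ω} {F₂ : MvPolynomial ι₂ Ω} {p₁ : ι₁ → ℕ} {p₂ : ι₂ → ℕ} {d : ℕ}
    (hd : 0 < d) (h₁ : F₁.IsWeightedHomogeneous p₁ d) (h₂ : F₂.IsWeightedHomogeneous p₂ d)
    (hF₁ : F₁ ≠ 0) (hF₂ : F₂ ≠ 0)
    (H₁ : Fibre Q F₁) (H₂ : Fibre Q F₂) (K : Type) [Field K] [Algebra Ω K]
    (X : ι₁ → K) (Y : ι₂ → K) (hX : adjoin Ω (Set.range X ∪ Set.range Y) = ⊤)
    (hrel : MvPolynomial.aeval X F₁ + MvPolynomial.aeval Y F₂ = 0) (j : ι₂) (hpj : p₂ j = 1)
    (hj : Y j = 1) (htr : #ι₁ + #ι₂ ≤ Algebra.trdeg Ω K + 2) : Q K := by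
  refine projective hQ hd h₁ h₂ H₁ H₂ K X Y hX (fun h0 => ?_) hrel j hpj hj htr
  have h1 := trdeg_add_one_le X F₁ hF₁ h0
  have h2 := trdeg_add_two_le Y j hj hpj h₂ hF₂ (by rw [← hrel, h0, zero_add])
  have h3 := trdeg_sup_le (adjoin Ω (Set.range X)) (adjoin Ω (Set.range Y))
  rw [← adjoin_union, hX] at h3
  have h4 : Algebra.trdeg Ω (⊤ : IntermediateField Ω K) = Algebra.trdeg Ω K := topEquiv.trdeg_eq
  rw [h4] at h3
  rw [mk_fintype] at h1 h2 htr
  obtain ⟨a, ha, ha'⟩ := exists_nat_of_le h1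
  have h2' : Algebra.trdeg Ω (adjoin Ω (Set.range Y)) + 1 ≤
      ((Fintype.card ι₂ : ℕ) : Cardinal) := by
    refine le_trans ?_ h2
    gcongr
    exact one_le_two
  obtain ⟨b, hb, hb'⟩ := exists_nat_of_le h2'
  rw [hb] at h2
  have h5 : b + 2 ≤ Fintype.card ι₂ := by exact_mod_cast h2
  rw [ha, hb] at h3
  rw [mk_fintype] at htr
  have h6 : ((Fintype.card ι₁ + Fintype.card ι₂ : ℕ) : Cardinal) ≤ ((a + b + 2 : ℕ) : Cardinal) := by
    calc ((Fintype.card ι₁ + Fintype.card ι₂ : ℕ) : Cardinal)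
        = (Fintype.card ι₁ : Cardinal) + (Fintype.card ι₂ : Cardinal) := by norm_cast
      _ ≤ Algebra.trdeg Ω K + 2 := htr
      _ ≤ ((a : Cardinal) + (b : Cardinal)) + 2 := by gcongr
      _ = ((a + b + 2 : ℕ) : Cardinal) := by norm_cast
  have h7 : Fintype.card ι₁ + Fintype.card ι₂ ≤ a + b + 2 := by exact_mod_cast h6
  omega

/-- **The hypersurfaces `F₁ + ⋯ + Fₘ = 0`** in weighted projective spaces. -/
theorem hyper (hQ : Closed Ω Q) [IsAlgClosed Ω] {m : ℕ} (n : Fin (m + 2) → ℕ)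
    (p : ∀ j, Fin (n j) → ℕ) {d : ℕ} (hd : 0 < d) (F : ∀ j, MvPolynomial (Fin (n j)) Ω)
    (hF0 : ∀ j, F j ≠ 0) (hF : ∀ j, (F j).IsWeightedHomogeneous (p j) d)
    (H : ∀ j, Fibre Q (F j)) (K : Type) [Field K]
    [Algebra Ω K] (X : ∀ j, Fin (n j) → K) (hX : adjoin Ω {z | ∃ j i, X j i = z} = ⊤)
    (h0 : ∑ j, MvPolynomial.aeval (X j) (F j) = 0) (i : Fin (n (Fin.last (m + 1))))
    (hi : p (Fin.last (m + 1)) i = 1) (h1 : X (Fin.last (m + 1)) i = 1)
    (htr : ((∑ j, n j : ℕ) : Cardinal) ≤ Algebra.trdeg Ω K + 2) : Q K := by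
  have hN := Nice.sum hQ m (fun j => n j.castSucc) (fun j => F j.castSucc) (fun j =>
    ⟨hF0 _, ⟨_, d, hd, hF _⟩, H _⟩)
  let q : (Σ j : Fin (m + 1), Fin (n j.castSucc)) → ℕ := fun s => p s.1.castSucc s.2
  have hhom : (∑ j : Fin (m + 1), MvPolynomial.rename (Sigma.mk j) (F j.castSucc) :
      MvPolynomial (Σ j : Fin (m + 1), Fin (n j.castSucc)) Ω).IsWeightedHomogeneous q d := by
    refine (MvPolynomial.weightedHomogeneousSubmodule Ω q d).sum_mem fun j _ => ?_
    have e1 := weighted_rename (sigma_mk_injective (i := j)) (hF j.castSucc) 1 q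
      (fun i => (one_mul _).symm)
    rw [one_mul] at e1
    exact e1
  refine projective' hQ hd hhom (hF (Fin.last (m + 1))) hN.ne (hF0 _) hN.fib (H _) K
    (fun s => X s.1.castSucc s.2) (X (Fin.last (m + 1))) ?_ ?_ i hi h1 ?_
  · rw [eq_top_iff, ← hX, adjoin_le_iff]
    rintro _ ⟨j, i, rfl⟩
    induction j using Fin.lastCases with
    | last => exact subset_adjoin _ _ (Or.inr ⟨i, rfl⟩)
    | cast j => exact subset_adjoin _ _ (Or.inl ⟨⟨j, i⟩, rfl⟩)
  · have e1 := Fin.sum_univ_castSucc (fun j => MvPolynomial.aeval (X j) (F j))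
    rw [← h0, e1, map_sum]
    congr 1
    refine Finset.sum_congr rfl fun j _ => ?_
    rw [MvPolynomial.aeval_rename]
    rfl
  · refine le_trans (le_of_eq ?_) htr
    have e1 := Fin.sum_univ_castSucc n
    rw [mk_fintype, mk_fintype, Fintype.card_sigma, Fintype.card_fin, e1]
    simp only [Fintype.card_fin]
    norm_cast

end Pool.Agent.Helper48.KC
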