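import Pool.Agent.Helper48.KC.Trdeg

/-! The inductive structure: the hypersurface `F₁(X₁) + F₂(X₂) = 1` is dominated by the product of
the hypersurfaces `F₁ = 1`, `F₂ = 1` and of a Fermat curve. -/

set_option autoImplicit false

namespace Pool.Agent.Helper48.KC

open IntermediateField Cardinal

/-- a class of fields which contains the curves and is closed under products and under subfields -/
structure Closed (Ω : Type) [Field Ω] (Q : ∀ (K : Type) [Field K] [Algebra Ω K], Prop) : Prop where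
  curve : ∀ (K : Type) [Field K] [Algebra Ω K], (⊤ : IntermediateField Ω K).FG →
    Algebra.trdeg Ω K ≤ 1 → Q K
  sub : ∀ (K₀ K : Type) [Field K₀] [Algebra Ω K₀] [Field K] [Algebra Ω K] (g : K₀ →ₐ[Ω] K),
    (∀ k : K, IsAlgebraic g.fieldRange k) → Q K → Q K₀
  prod : ∀ (K₁ K₂ N : Type) [Field K₁] [Algebra Ω K₁] [Field K₂] [Algebra Ω K₂] [Field N]
    [Algebra Ω N] (a : K₁ →ₐ[Ω] N) (b : K₂ →ₐ[Ω] N), (⊤ : IntermediateField Ω K₁).FG →
    (⊤ : IntermediateField Ω K₂).FG → a.fieldRange ⊔ b.fieldRange = ⊤ →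
    Algebra.trdeg Ω N = Algebra.trdeg Ω K₁ + Algebra.trdeg Ω K₂ → Q K₁ → Q K₂ → Q N

variable {Ω : Type} [Field Ω] {Q : ∀ (K : Type) [Field K] [Algebra Ω K], Prop}

/-- the function fields of the hypersurface `F = 1` are in the class -/
def Fibre (Q : ∀ (K : Type) [Field K] [Algebra Ω K], Prop) {ι : Type} (F : MvPolynomial ι Ω) :
    Prop :=
  ∀ (K : Type) [Field K] [Algebra Ω K] (X : ι → K), adjoin Ω (Set.range X) = ⊤ →
    MvPolynomial.aeval X F = 1 → #ι ≤ Algebra.trdeg Ω K + 1 → Q K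

variable {E : Type} [Field E] [Algebra Ω E]

theorem top_fg (A : IntermediateField Ω E) (hA : A.FG) : (⊤ : IntermediateField Ω A).FG := by
  obtain ⟨t, ht⟩ := hA
  have h1 : (t : Set E) ⊆ A := by
    rw [← ht]
    exact subset_adjoin _ _
  refine fg_def.2 ⟨(Subtype.val : A → E) ⁻¹' t,
    Set.Finite.preimage Subtype.val_injective.injOn t.finite_toSet, ?_⟩
  have h2 : (adjoin Ω ((Subtype.val : A → E) ⁻¹' (t : Set E))).map A.val =
      (⊤ : IntermediateField Ω A).map A.val := by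
    rw [adjoin_map, ← AlgHom.fieldRange_eq_map, fieldRange_val]
    have h3 : (A.val : A → E) '' ((Subtype.val : A → E) ⁻¹' (t : Set E)) = t := by
      refine Set.image_preimage_eq_of_subset fun z hz => ?_
      exact ⟨⟨z, h1 hz⟩, rfl⟩
    rw [h3, ht]
  exact map_injective _ h2

theorem pair (hQ : Closed Ω Q) (A B : IntermediateField Ω E) (hA : A.FG) (hB : B.FG)
    (h : Algebra.trdeg Ω ↥(A ⊔ B) = Algebra.trdeg Ω A + Algebra.trdeg Ω B) (h1 : Q A)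
    (h2 : Q B) : Q ↥(A ⊔ B) := by
  refine hQ.prod A B ↥(A ⊔ B) (inclusion le_sup_left) (inclusion le_sup_right) (top_fg A hA)
    (top_fg B hB) ?_ h h1 h2
  refine map_injective (A ⊔ B).val ?_
  rw [IntermediateField.map_sup, ← AlgHom.fieldRange_eq_map, fieldRange_val]
  have e1 : (inclusion (le_sup_left : A ≤ A ⊔ B)).fieldRange.map (A ⊔ B).val = A := by
    ext z
    constructor
    · rintro ⟨_, ⟨a, rfl⟩, rfl⟩
      exact a.2
    · intro hz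
      exact ⟨_, ⟨⟨z, hz⟩, rfl⟩, rfl⟩
  have e2 : (inclusion (le_sup_right : B ≤ A ⊔ B)).fieldRange.map (A ⊔ B).val = B := by
    ext z
    constructor
    · rintro ⟨_, ⟨a, rfl⟩, rfl⟩
      exact a.2
    · intro hz
      exact ⟨_, ⟨⟨z, hz⟩, rfl⟩, rfl⟩
  rw [e1, e2]

theorem weighted_eval {ι : Type} [Fintype ι] {F : MvPolynomial ι Ω} {p : ι → ℕ} {d : ℕ}
    (h : F.IsWeightedHomogeneous p d) (c : E) (y : ι → E) :
    MvPolynomial.aeval (fun i => c ^ p i * y i) F = c ^ d * MvPolynomial.aeval y F := by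
  rw [MvPolynomial.aeval_def, MvPolynomial.eval₂_eq', MvPolynomial.aeval_def,
    MvPolynomial.eval₂_eq', Finset.mul_sum]
  refine Finset.sum_congr rfl fun m hm => ?_
  have h1 : Finsupp.weight p m = d := h (MvPolynomial.mem_support_iff.1 hm)
  have h2 : ∑ i, m i * p i = d := by
    rw [← h1, Finsupp.weight_apply, Finsupp.sum_fintype _ _ (fun _ => by simp)]
    simp only [smul_eq_mul]
  simp only [mul_pow, Finset.prod_mul_distrib]
  have h3 : ∏ i, (c ^ p i) ^ m i = c ^ d := by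
    rw [← h2, ← Finset.prod_pow_eq_pow_sum]
    refine Finset.prod_congr rfl fun i _ => ?_
    rw [← pow_mul, mul_comm]
  rw [h3]
  ring

theorem sub_one_ne {ι : Type} {F : MvPolynomial ι Ω} {p : ι → ℕ} {d : ℕ}
    (h : F.IsWeightedHomogeneous p d) (hd : 0 < d) : F - 1 ≠ 0 := by
  intro h0
  have h1 : F = 1 := sub_eq_zero.1 h0
  have h2 : MvPolynomial.coeff 0 F ≠ 0 := by
    rw [h1]
    simp
  have h3 : Finsupp.weight p (0 : ι →₀ ℕ) = d := h h2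
  rw [map_zero] at h3
  omega

/-- the field generated by a family -/
theorem fibre_apply {ι : Type} {F : MvPolynomial ι Ω} (H : Fibre Q F) (y : ι → E)
    (h1 : MvPolynomial.aeval y F = 1)
    (h2 : #ι ≤ Algebra.trdeg Ω (adjoin Ω (Set.range y)) + 1) : Q (adjoin Ω (Set.range y)) := by
  let Y : ι → adjoin Ω (Set.range y) := fun i => ⟨y i, subset_adjoin _ _ ⟨i, rfl⟩⟩
  refine H _ Y ?_ ?_ h2
  · refine map_injective (adjoin Ω (Set.range y)).val ?_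
    rw [adjoin_map, ← Set.range_comp]
    have h2 : (adjoin Ω (Set.range y)).val ∘ Y = y := rfl
    rw [h2, ← AlgHom.fieldRange_eq_map, fieldRange_val]
  · refine Subtype.ext ?_
    exact (MvPolynomial.comp_aeval_apply (f := Y) (adjoin Ω (Set.range y)).val F).trans h1

theorem exists_nat_of_le {c : Cardinal.{0}} {n : ℕ} (h : c + 1 ≤ (n : Cardinal)) :
    ∃ m : ℕ, c = m ∧ m + 1 ≤ n := by
  have h1 : c < ℵ₀ := (le_self_add.trans h).trans_lt natCast_lt_aleph0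
  obtain ⟨m, rfl⟩ := lt_aleph0.1 h1
  exact ⟨m, rfl, by exact_mod_cast h⟩

theorem exists_nat_of_le' {c : Cardinal.{0}} {n : ℕ} (h : c ≤ (n : Cardinal)) :
    ∃ m : ℕ, c = m ∧ m ≤ n := by
  have h1 : c < ℵ₀ := h.trans_lt natCast_lt_aleph0
  obtain ⟨m, rfl⟩ := lt_aleph0.1 h1
  exact ⟨m, rfl, by exact_mod_cast h⟩

/-- **The inductive structure.** -/
theorem Fibre.add (hQ : Closed Ω Q) {ι₁ ι₂ : Type} [Fintype ι₁] [Fintype ι₂]
    {F₁ : MvPolynomial ι₁ Ω} {F₂ : MvPolynomial ι₂ Ω} {p₁ : ι₁ → ℕ} {p₂ : ι₂ → ℕ} {d₁ d₂ : ℕ}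
    (h₁ : F₁.IsWeightedHomogeneous p₁ d₁) (h₂ : F₂.IsWeightedHomogeneous p₂ d₂) (hd₁ : 0 < d₁)
    (hd₂ : 0 < d₂) (hF₁ : F₁ ≠ 0) (hF₂ : F₂ ≠ 0) (H₁ : Fibre Q F₁) (H₂ : Fibre Q F₂) :
    Fibre Q (MvPolynomial.rename Sum.inl F₁ + MvPolynomial.rename Sum.inr F₂ :
      MvPolynomial (ι₁ ⊕ ι₂) Ω) := by
  intro K _ _ X hX hrel htr
  let E := AlgebraicClosure K
  let x₁ : ι₁ → E := fun i => algebraMap K E (X (Sum.inl i))
  let x₂ : ι₂ → E := fun i => algebraMap K E (X (Sum.inr i))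
  set v₁ : E := MvPolynomial.aeval x₁ F₁ with hv₁
  set v₂ : E := MvPolynomial.aeval x₂ F₂ with hv₂
  have hv : v₁ + v₂ = 1 := by
    have e1 := congrArg (IsScalarTower.toAlgHom Ω K E) hrel
    rw [map_add, map_add, MvPolynomial.aeval_rename, MvPolynomial.aeval_rename, map_one,
      MvPolynomial.comp_aeval_apply, MvPolynomial.comp_aeval_apply] at e1
    exact e1
  -- the fields over which we work contain `K`
  have hcard : (#(ι₁ ⊕ ι₂) : Cardinal) = ((Fintype.card ι₁ + Fintype.card ι₂ : ℕ) : Cardinal) := by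
    rw [mk_fintype, Fintype.card_sum]
  have hcard₁ : (#ι₁ : Cardinal) = ((Fintype.card ι₁ : ℕ) : Cardinal) := mk_fintype _
  have hcard₂ : (#ι₂ : Cardinal) = ((Fintype.card ι₂ : ℕ) : Cardinal) := mk_fintype _
  have hin : ∀ N : IntermediateField Ω E, (∀ i, x₁ i ∈ N) → (∀ i, x₂ i ∈ N) →
      ∃ g : K →ₐ[Ω] N, ∀ k, ((g k : N) : E) = algebraMap K E k := by
    intro N hN₁ hN₂
    have h0 : ∀ k : K, algebraMap K E k ∈ N := by
      intro k
      have hk : k ∈ adjoin Ω (Set.range X) := by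
        rw [hX]
        exact mem_top
      have h3 : adjoin Ω (Set.range X) ≤ N.comap (IsScalarTower.toAlgHom Ω K E) := by
        rw [adjoin_le_iff]
        rintro _ ⟨i, rfl⟩
        rcases i with i | i
        · exact hN₁ i
        · exact hN₂ i
      exact h3 hk
    exact ⟨(IsScalarTower.toAlgHom Ω K E).codRestrict N.toSubalgebra h0, fun k => rfl⟩
  have hle : ∀ N : IntermediateField Ω E, (∀ i, x₁ i ∈ N) → (∀ i, x₂ i ∈ N) →
      Algebra.trdeg Ω K ≤ Algebra.trdeg Ω N := by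
    intro N hN₁ hN₂
    obtain ⟨g, _⟩ := hin N hN₁ hN₂
    exact trdeg_le_of_injective g g.injective
  -- the values are not zero
  have hnz₁ : v₁ ≠ 0 := by
    intro h0
    have h3 : v₂ = 1 := by rw [← hv, h0, zero_add]
    have h4 := trdeg_add_one_le x₁ F₁ hF₁ h0
    have h5 := trdeg_add_one_le x₂ (F₂ - 1) (sub_one_ne h₂ hd₂) (by
      rw [map_sub, map_one, ← hv₂, h3, sub_self])
    have h6 := hle (adjoin Ω (Set.range x₁) ⊔ adjoin Ω (Set.range x₂))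
      (fun i => (le_sup_left : adjoin Ω (Set.range x₁) ≤ _) (subset_adjoin _ _ ⟨i, rfl⟩))
      (fun i => (le_sup_right : adjoin Ω (Set.range x₂) ≤ _) (subset_adjoin _ _ ⟨i, rfl⟩))
    have h7 := trdeg_sup_le (adjoin Ω (Set.range x₁)) (adjoin Ω (Set.range x₂))
    rw [hcard₁] at h4
    rw [hcard₂] at h5
    obtain ⟨a, ha, ha'⟩ := exists_nat_of_le h4
    obtain ⟨b, hb, hb'⟩ := exists_nat_of_le h5
    have h8 : ((Fintype.card ι₁ + Fintype.card ι₂ : ℕ) : Cardinal) ≤ ((a + b + 1 : ℕ) : Cardinal) := by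
      rw [← hcard]
      refine htr.trans ?_
      have h9 : Algebra.trdeg Ω K ≤ ((a + b : ℕ) : Cardinal) := by
        refine h6.trans (h7.trans ?_)
        rw [ha, hb]
        norm_cast
      calc Algebra.trdeg Ω K + 1 ≤ ((a + b : ℕ) : Cardinal) + 1 := by gcongr
        _ = ((a + b + 1 : ℕ) : Cardinal) := by norm_cast
    have h9 : Fintype.card ι₁ + Fintype.card ι₂ ≤ a + b + 1 := by exact_mod_cast h8
    omega
  have hnz₂ : v₂ ≠ 0 := by
    intro h0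
    have h3 : v₁ = 1 := by rw [← hv, h0, add_zero]
    have h4 := trdeg_add_one_le x₂ F₂ hF₂ h0
    have h5 := trdeg_add_one_le x₁ (F₁ - 1) (sub_one_ne h₁ hd₁) (by
      rw [map_sub, map_one, ← hv₁, h3, sub_self])
    have h6 := hle (adjoin Ω (Set.range x₁) ⊔ adjoin Ω (Set.range x₂))
      (fun i => (le_sup_left : adjoin Ω (Set.range x₁) ≤ _) (subset_adjoin _ _ ⟨i, rfl⟩))
      (fun i => (le_sup_right : adjoin Ω (Set.range x₂) ≤ _) (subset_adjoin _ _ ⟨i, rfl⟩))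
    have h7 := trdeg_sup_le (adjoin Ω (Set.range x₁)) (adjoin Ω (Set.range x₂))
    rw [hcard₂] at h4
    rw [hcard₁] at h5
    obtain ⟨a, ha, ha'⟩ := exists_nat_of_le h5
    obtain ⟨b, hb, hb'⟩ := exists_nat_of_le h4
    have h8 : ((Fintype.card ι₁ + Fintype.card ι₂ : ℕ) : Cardinal) ≤ ((a + b + 1 : ℕ) : Cardinal) := by
      rw [← hcard]
      refine htr.trans ?_
      have h9 : Algebra.trdeg Ω K ≤ ((a + b : ℕ) : Cardinal) := by
        refine h6.trans (h7.trans ?_)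
        rw [ha, hb]
        norm_cast
      calc Algebra.trdeg Ω K + 1 ≤ ((a + b : ℕ) : Cardinal) + 1 := by gcongr
        _ = ((a + b + 1 : ℕ) : Cardinal) := by norm_cast
    have h9 : Fintype.card ι₁ + Fintype.card ι₂ ≤ a + b + 1 := by exact_mod_cast h8
    omega
  -- roots of the values
  obtain ⟨w₁, hw₁⟩ := IsAlgClosed.exists_pow_nat_eq v₁ hd₁
  obtain ⟨w₂, hw₂⟩ := IsAlgClosed.exists_pow_nat_eq v₂ hd₂
  have hw₁0 : w₁ ≠ 0 := by
    rintro rfl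
    rw [zero_pow hd₁.ne'] at hw₁
    exact hnz₁ hw₁.symm
  have hw₂0 : w₂ ≠ 0 := by
    rintro rfl
    rw [zero_pow hd₂.ne'] at hw₂
    exact hnz₂ hw₂.symm
  let y₁ : ι₁ → E := fun i => x₁ i / w₁ ^ p₁ i
  let y₂ : ι₂ → E := fun i => x₂ i / w₂ ^ p₂ i
  have hxy₁ : ∀ i, x₁ i = w₁ ^ p₁ i * y₁ i := fun i => by
    show _ = w₁ ^ p₁ i * (x₁ i / w₁ ^ p₁ i)
    rw [mul_div_cancel₀ _ (pow_ne_zero _ hw₁0)]
  have hxy₂ : ∀ i, x₂ i = w₂ ^ p₂ i * y₂ i := fun i => by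
    show _ = w₂ ^ p₂ i * (x₂ i / w₂ ^ p₂ i)
    rw [mul_div_cancel₀ _ (pow_ne_zero _ hw₂0)]
  have hy₁ : MvPolynomial.aeval y₁ F₁ = 1 := by
    have e1 := weighted_eval h₁ w₁ y₁
    have e2 : (fun i => w₁ ^ p₁ i * y₁ i) = x₁ := funext fun i => (hxy₁ i).symm
    rw [e2, ← hv₁, ← hw₁] at e1
    have e3 : w₁ ^ d₁ * 1 = w₁ ^ d₁ * MvPolynomial.aeval y₁ F₁ := by rw [mul_one]; exact e1
    exact (mul_left_cancel₀ (pow_ne_zero _ hw₁0) e3).symm
  have hy₂ : MvPolynomial.aeval y₂ F₂ = 1 := by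
    have e1 := weighted_eval h₂ w₂ y₂
    have e2 : (fun i => w₂ ^ p₂ i * y₂ i) = x₂ := funext fun i => (hxy₂ i).symm
    rw [e2, ← hv₂, ← hw₂] at e1
    have e3 : w₂ ^ d₂ * 1 = w₂ ^ d₂ * MvPolynomial.aeval y₂ F₂ := by rw [mul_one]; exact e1
    exact (mul_left_cancel₀ (pow_ne_zero _ hw₂0) e3).symm
  set A₁ := adjoin Ω (Set.range y₁) with hA₁
  set A₂ := adjoin Ω (Set.range y₂) with hA₂
  set C := adjoin Ω (Set.range ![w₁, w₂]) with hC
  have t₁ := trdeg_add_one_le y₁ (F₁ - 1) (sub_one_ne h₁ hd₁) (by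
      rw [map_sub, map_one, hy₁, sub_self])
  have t₂ := trdeg_add_one_le y₂ (F₂ - 1) (sub_one_ne h₂ hd₂) (by
      rw [map_sub, map_one, hy₂, sub_self])
  have t₃ := trdeg_add_one_le (Ω := Ω) ![w₁, w₂]
    (MvPolynomial.X 0 ^ d₁ + MvPolynomial.X 1 ^ d₂ - 1) (by
      intro h0
      have h3 := congrArg (MvPolynomial.eval (fun _ => (0 : Ω))) h0
      simp [zero_pow hd₁.ne', zero_pow hd₂.ne'] at h3) (by
      simp only [map_sub, map_add, map_pow, MvPolynomial.aeval_X, map_one]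
      show w₁ ^ d₁ + w₂ ^ d₂ - 1 = 0
      rw [hw₁, hw₂, hv, sub_self])
  rw [← hA₁, hcard₁] at t₁
  rw [← hA₂, hcard₂] at t₂
  rw [← hC, mk_fintype, Fintype.card_fin] at t₃
  obtain ⟨a₁, ha₁, ha₁'⟩ := exists_nat_of_le t₁
  obtain ⟨a₂, ha₂, ha₂'⟩ := exists_nat_of_le t₂
  obtain ⟨c, hc, hc'⟩ := exists_nat_of_le t₃
  have s₁ : Algebra.trdeg Ω ↥(A₁ ⊔ A₂) ≤ ((a₁ + a₂ : ℕ) : Cardinal) := by
    refine (trdeg_sup_le A₁ A₂).trans ?_
    rw [ha₁, ha₂]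
    norm_cast
  obtain ⟨b, hb, hb'⟩ := exists_nat_of_le' s₁
  have s₂ : Algebra.trdeg Ω ↥((A₁ ⊔ A₂) ⊔ C) ≤ ((b + c : ℕ) : Cardinal) := by
    refine (trdeg_sup_le (A₁ ⊔ A₂) C).trans ?_
    rw [hb, hc]
    norm_cast
  obtain ⟨n, hn, hn'⟩ := exists_nat_of_le' s₂
  have mw₁ : w₁ ∈ (A₁ ⊔ A₂) ⊔ C :=
    (le_sup_right : C ≤ (A₁ ⊔ A₂) ⊔ C) (subset_adjoin _ _ ⟨0, rfl⟩)
  have mw₂ : w₂ ∈ (A₁ ⊔ A₂) ⊔ C :=
    (le_sup_right : C ≤ (A₁ ⊔ A₂) ⊔ C) (subset_adjoin _ _ ⟨1, rfl⟩)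
  have my₁ : ∀ i, y₁ i ∈ (A₁ ⊔ A₂) ⊔ C := fun i =>
    (le_sup_left.trans le_sup_left : A₁ ≤ (A₁ ⊔ A₂) ⊔ C) (subset_adjoin _ _ ⟨i, rfl⟩)
  have my₂ : ∀ i, y₂ i ∈ (A₁ ⊔ A₂) ⊔ C := fun i =>
    (le_sup_right.trans le_sup_left : A₂ ≤ (A₁ ⊔ A₂) ⊔ C) (subset_adjoin _ _ ⟨i, rfl⟩)
  have mx₁ : ∀ i, x₁ i ∈ (A₁ ⊔ A₂) ⊔ C := fun i => by
    rw [hxy₁ i]
    exact mul_mem (pow_mem mw₁ _) (my₁ i)
  have mx₂ : ∀ i, x₂ i ∈ (A₁ ⊔ A₂) ⊔ C := fun i => by
    rw [hxy₂ i]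
    exact mul_mem (pow_mem mw₂ _) (my₂ i)
  have key : Fintype.card ι₁ + Fintype.card ι₂ ≤ n + 1 := by
    have h8 : ((Fintype.card ι₁ + Fintype.card ι₂ : ℕ) : Cardinal) ≤ ((n + 1 : ℕ) : Cardinal) := by
      rw [← hcard]
      refine htr.trans ?_
      calc Algebra.trdeg Ω K + 1 ≤ Algebra.trdeg Ω ↥((A₁ ⊔ A₂) ⊔ C) + 1 := by
            gcongr
            exact hle _ mx₁ mx₂
        _ = ((n + 1 : ℕ) : Cardinal) := by rw [hn]; norm_cast
    exact_mod_cast h8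
  have fgA₁ : A₁.FG := fg_adjoin_of_finite (Set.finite_range _)
  have fgA₂ : A₂.FG := fg_adjoin_of_finite (Set.finite_range _)
  have fgC : C.FG := fg_adjoin_of_finite (Set.finite_range _)
  have q₁ : Q A₁ := fibre_apply H₁ y₁ hy₁ (by
    rw [← hA₁, ha₁, hcard₁]
    have : Fintype.card ι₁ ≤ a₁ + 1 := by omega
    exact_mod_cast this)
  have q₂ : Q A₂ := fibre_apply H₂ y₂ hy₂ (by
    rw [← hA₂, ha₂, hcard₂]
    have : Fintype.card ι₂ ≤ a₂ + 1 := by omega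
    exact_mod_cast this)
  have q₃ : Q C := hQ.curve _ (top_fg C fgC) (by
    rw [hc]
    have : c ≤ 1 := by omega
    exact_mod_cast this)
  have q₄ : Q ↥(A₁ ⊔ A₂) := pair hQ A₁ A₂ fgA₁ fgA₂ (by
    rw [hb, ha₁, ha₂]
    have : b = a₁ + a₂ := by omega
    exact_mod_cast this) q₁ q₂
  have q₅ : Q ↥((A₁ ⊔ A₂) ⊔ C) := pair hQ (A₁ ⊔ A₂) C (fg_sup fgA₁ fgA₂) fgC (by
    rw [hn, hb, hc]
    have : n = b + c := by omega
    exact_mod_cast this) q₄ q₃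
  obtain ⟨g, hg⟩ := hin _ mx₁ mx₂
  refine hQ.sub K _ g (fun k => ?_) q₅
  obtain ⟨p, hp, hp0⟩ := (Algebra.IsAlgebraic.isAlgebraic (k : E) : IsAlgebraic K (k : E))
  let ρ : K →+* g.fieldRange := (g.rangeRestrict : K →ₐ[Ω] g.range).toRingHom
  refine ⟨p.map ρ, (Polynomial.map_ne_zero_iff ρ.injective).2 hp, ?_⟩
  refine Subtype.ext ?_
  rw [Polynomial.aeval_def, Polynomial.eval₂_map]
  rw [Polynomial.aeval_def] at hp0
  have e1 := Polynomial.hom_eval₂ p ((algebraMap g.fieldRange ↥((A₁ ⊔ A₂) ⊔ C)).comp ρ)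
    (((A₁ ⊔ A₂) ⊔ C).val : ↥((A₁ ⊔ A₂) ⊔ C) →+* E) k
  refine e1.trans ?_
  have e2 : ((((A₁ ⊔ A₂) ⊔ C).val : ↥((A₁ ⊔ A₂) ⊔ C) →+* E)).comp
      ((algebraMap g.fieldRange ↥((A₁ ⊔ A₂) ⊔ C)).comp ρ) = algebraMap K E :=
    RingHom.ext fun z => hg z
  rw [e2]
  exact hp0

end Pool.Agent.Helper48.KC
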