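import Pool.Agent.Helper48.KC.Sum

/-! The cyclic covers `z ^ n = F₁(X₁) * F₂(X₂)`. -/

set_option autoImplicit false

namespace Pool.Agent.Helper48.KC

open IntermediateField Cardinal

variable {Ω : Type} [Field Ω] {Q : ∀ (K : Type) [Field K] [Algebra Ω K], Prop}

/-- the function fields of the varieties `w ^ n = F(X)`, where the `X i` are independent, are in the
class -/
def Root (Q : ∀ (K : Type) [Field K] [Algebra Ω K], Prop) (n : ℕ) {ι : Type}
    (F : MvPolynomial ι Ω) : Prop :=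
  ∀ (K : Type) [Field K] [Algebra Ω K] (X : ι → K) (w : K),
    adjoin Ω (insert w (Set.range X)) = ⊤ → w ^ n = MvPolynomial.aeval X F →
    #ι ≤ Algebra.trdeg Ω K → Q K

/-- the field generated by a family and a root -/
theorem root_apply {E : Type} [Field E] [Algebra Ω E] {ι : Type} {n : ℕ} {F : MvPolynomial ι Ω}
    (H : Root Q n F) (x : ι → E) (w : E) (h1 : w ^ n = MvPolynomial.aeval x F)
    (h2 : #ι ≤ Algebra.trdeg Ω (adjoin Ω (insert w (Set.range x)))) :
    Q (adjoin Ω (insert w (Set.range x))) := by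
  let A := adjoin Ω (insert w (Set.range x))
  let X : ι → A := fun i => ⟨x i, subset_adjoin _ _ (Or.inr ⟨i, rfl⟩)⟩
  let W : A := ⟨w, subset_adjoin _ _ (Or.inl rfl)⟩
  refine H A X W ?_ ?_ h2
  · refine map_injective A.val ?_
    rw [adjoin_map, Set.image_insert_eq, ← Set.range_comp]
    have h2 : A.val ∘ X = x := rfl
    have h3 : A.val W = w := rfl
    rw [h2, h3, ← AlgHom.fieldRange_eq_map, fieldRange_val]
  · refine Subtype.ext ?_
    exact h1.trans (MvPolynomial.comp_aeval_apply (f := X) A.val F).symm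

theorem trdeg_root_le {E : Type} [Field E] [Algebra Ω E] {ι : Type} {n : ℕ} (hn : 0 < n)
    {F : MvPolynomial ι Ω} (x : ι → E) (w : E) (h1 : w ^ n = MvPolynomial.aeval x F) :
    Algebra.trdeg Ω (adjoin Ω (insert w (Set.range x))) ≤ #ι := by
  let A := adjoin Ω (insert w (Set.range x))
  let X : ι → A := fun i => ⟨x i, subset_adjoin _ _ (Or.inr ⟨i, rfl⟩)⟩
  let W : A := ⟨w, subset_adjoin _ _ (Or.inl rfl)⟩
  have hW : W ^ n = MvPolynomial.aeval X F := by
    refine Subtype.ext ?_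
    exact h1.trans (MvPolynomial.comp_aeval_apply (f := X) A.val F).symm
  have hmem : W ^ n ∈ adjoin Ω (Set.range X) := by
    rw [hW]
    apply algebra_adjoin_le_adjoin Ω
    rw [Algebra.adjoin_range_eq_range_aeval]
    exact ⟨F, rfl⟩
  have htop : adjoin Ω (insert W (Set.range X)) = ⊤ := by
    refine map_injective A.val ?_
    rw [adjoin_map, Set.image_insert_eq, ← Set.range_comp]
    have h2 : A.val ∘ X = x := rfl
    have h3 : A.val W = w := rfl
    rw [h2, h3, ← AlgHom.fieldRange_eq_map, fieldRange_val]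
  refine (trdeg_le_of_alg (Set.range X) fun a => ?_).trans mk_range_le
  let B := algebraicClosure (adjoin Ω (Set.range X)) A
  have h2 : adjoin Ω (insert W (Set.range X)) ≤ B.restrictScalars Ω := by
    rw [adjoin_le_iff]
    rintro s (rfl | hs)
    · refine mem_algebraicClosure_iff.2 ⟨Polynomial.X ^ n - Polynomial.C ⟨W ^ n, hmem⟩,
        Polynomial.X_pow_sub_C_ne_zero hn _, ?_⟩
      rw [map_sub, map_pow, Polynomial.aeval_X, Polynomial.aeval_C]
      exact sub_self _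
    · exact B.algebraMap_mem ⟨s, subset_adjoin _ _ hs⟩
  exact mem_algebraicClosure_iff.1 (h2 (by
    rw [htop]
    exact mem_top))

/-- **Products.** -/
theorem Root.mul (hQ : Closed Ω Q) {ι₁ ι₂ : Type} [Fintype ι₁] [Fintype ι₂] {n : ℕ}
    (hn : 0 < n) {F₁ : MvPolynomial ι₁ Ω} {F₂ : MvPolynomial ι₂ Ω} (H₁ : Root Q n F₁)
    (H₂ : Root Q n F₂) (hF₁ : F₁ ≠ 0) :
    Root Q n (MvPolynomial.rename Sum.inl F₁ * MvPolynomial.rename Sum.inr F₂ :
      MvPolynomial (ι₁ ⊕ ι₂) Ω) := by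
  intro K _ _ X z hX hrel htr
  let E := AlgebraicClosure K
  let x₁ : ι₁ → E := fun i => algebraMap K E (X (Sum.inl i))
  let x₂ : ι₂ → E := fun i => algebraMap K E (X (Sum.inr i))
  set v₁ : E := MvPolynomial.aeval x₁ F₁ with hv₁
  set v₂ : E := MvPolynomial.aeval x₂ F₂ with hv₂
  have hv : (algebraMap K E z) ^ n = v₁ * v₂ := by
    have e1 := congrArg (IsScalarTower.toAlgHom Ω K E) hrel
    rw [map_mul, map_mul, MvPolynomial.aeval_rename, MvPolynomial.aeval_rename, map_pow,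
      MvPolynomial.comp_aeval_apply, MvPolynomial.comp_aeval_apply] at e1
    exact e1
  have hcard : (#(ι₁ ⊕ ι₂) : Cardinal) = ((Fintype.card ι₁ + Fintype.card ι₂ : ℕ) : Cardinal) := by
    rw [mk_fintype, Fintype.card_sum]
  have hin : ∀ N : IntermediateField Ω E, algebraMap K E z ∈ N → (∀ i, x₁ i ∈ N) →
      (∀ i, x₂ i ∈ N) → ∃ g : K →ₐ[Ω] N, ∀ k, ((g k : N) : E) = algebraMap K E k := by
    intro N hz hN₁ hN₂
    have h0 : ∀ k : K, algebraMap K E k ∈ N := by
      intro k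
      have hk : k ∈ adjoin Ω (insert z (Set.range X)) := by
        rw [hX]
        exact mem_top
      have h3 : adjoin Ω (insert z (Set.range X)) ≤ N.comap (IsScalarTower.toAlgHom Ω K E) := by
        rw [adjoin_le_iff]
        rintro _ (rfl | ⟨i, rfl⟩)
        · exact hz
        rcases i with i | i
        · exact hN₁ i
        · exact hN₂ i
      exact h3 hk
    exact ⟨(IsScalarTower.toAlgHom Ω K E).codRestrict N.toSubalgebra h0, fun k => rfl⟩
  obtain ⟨w₁, hw₁⟩ := IsAlgClosed.exists_pow_nat_eq v₁ hn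
  -- the first value is not zero
  have hnz : v₁ ≠ 0 := by
    intro h0
    have h4 := trdeg_add_one_le x₁ F₁ hF₁ h0
    obtain ⟨w, hw⟩ := IsAlgClosed.exists_pow_nat_eq v₂ hn
    have hz0 : algebraMap K E z = 0 := by
      rw [h0, zero_mul] at hv
      exact pow_eq_zero_iff hn.ne' |>.1 hv
    obtain ⟨g, -⟩ := hin (adjoin Ω (Set.range x₁) ⊔ adjoin Ω (Set.range x₂))
      (by rw [hz0]; exact zero_mem _)
      (fun i => (le_sup_left : adjoin Ω (Set.range x₁) ≤ _) (subset_adjoin _ _ ⟨i, rfl⟩))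
      (fun i => (le_sup_right : adjoin Ω (Set.range x₂) ≤ _) (subset_adjoin _ _ ⟨i, rfl⟩))
    have h6 := trdeg_le_of_injective g g.injective
    have h7 := trdeg_sup_le (adjoin Ω (Set.range x₁)) (adjoin Ω (Set.range x₂))
    have h8 := trdeg_adjoin_le (Ω := Ω) x₂
    rw [mk_fintype] at h4 h8
    obtain ⟨a, ha, ha'⟩ := exists_nat_of_le h4
    have h9 : ((Fintype.card ι₁ + Fintype.card ι₂ : ℕ) : Cardinal) ≤
        ((a + Fintype.card ι₂ : ℕ) : Cardinal) := by
      rw [← hcard]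
      refine (htr.trans (h6.trans (h7.trans ?_)))
      rw [ha]
      push_cast
      gcongr
    have h10 : Fintype.card ι₁ + Fintype.card ι₂ ≤ a + Fintype.card ι₂ := by exact_mod_cast h9
    omega
  have hw₁0 : w₁ ≠ 0 := by
    rintro rfl
    rw [zero_pow hn.ne'] at hw₁
    exact hnz hw₁.symm
  obtain ⟨w₂, hw₂⟩ : ∃ w₂, w₂ = algebraMap K E z / w₁ := ⟨_, rfl⟩
  have hw₂n : w₂ ^ n = v₂ := by
    rw [hw₂, div_pow, hv, hw₁, mul_div_cancel_left₀ _ hnz]
  set A₁ := adjoin Ω (insert w₁ (Set.range x₁)) with hA₁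
  set A₂ := adjoin Ω (insert w₂ (Set.range x₂)) with hA₂
  have t₁ := trdeg_root_le hn x₁ w₁ hw₁
  have t₂ := trdeg_root_le hn x₂ w₂ hw₂n
  rw [← hA₁, mk_fintype] at t₁
  rw [← hA₂, mk_fintype] at t₂
  obtain ⟨a₁, ha₁, ha₁'⟩ := exists_nat_of_le' t₁
  obtain ⟨a₂, ha₂, ha₂'⟩ := exists_nat_of_le' t₂
  have s₁ : Algebra.trdeg Ω ↥(A₁ ⊔ A₂) ≤ ((a₁ + a₂ : ℕ) : Cardinal) := by
    refine (trdeg_sup_le A₁ A₂).trans ?_
    rw [ha₁, ha₂]
    norm_cast
  obtain ⟨b, hb, hb'⟩ := exists_nat_of_le' s₁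
  have mw₁ : w₁ ∈ A₁ ⊔ A₂ := (le_sup_left : A₁ ≤ A₁ ⊔ A₂) (subset_adjoin _ _ (Or.inl rfl))
  have mw₂ : w₂ ∈ A₁ ⊔ A₂ := (le_sup_right : A₂ ≤ A₁ ⊔ A₂) (subset_adjoin _ _ (Or.inl rfl))
  have mz : algebraMap K E z ∈ A₁ ⊔ A₂ := by
    have e1 : algebraMap K E z = w₁ * w₂ := by rw [hw₂, mul_div_cancel₀ _ hw₁0]
    rw [e1]
    exact mul_mem mw₁ mw₂
  obtain ⟨g, hg⟩ := hin (A₁ ⊔ A₂) mz
    (fun i => (le_sup_left : A₁ ≤ A₁ ⊔ A₂) (subset_adjoin _ _ (Or.inr ⟨i, rfl⟩)))
    (fun i => (le_sup_right : A₂ ≤ A₁ ⊔ A₂) (subset_adjoin _ _ (Or.inr ⟨i, rfl⟩)))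
  have key : Fintype.card ι₁ + Fintype.card ι₂ ≤ b := by
    have h8 : ((Fintype.card ι₁ + Fintype.card ι₂ : ℕ) : Cardinal) ≤ ((b : ℕ) : Cardinal) := by
      rw [← hcard, ← hb]
      exact htr.trans (trdeg_le_of_injective g g.injective)
    exact_mod_cast h8
  have fgA₁ : A₁.FG := fg_adjoin_of_finite ((Set.finite_range _).insert _)
  have fgA₂ : A₂.FG := fg_adjoin_of_finite ((Set.finite_range _).insert _)
  have q₁ : Q A₁ := root_apply H₁ x₁ w₁ hw₁ (by
    rw [← hA₁, ha₁, mk_fintype]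
    have : Fintype.card ι₁ ≤ a₁ := by omega
    exact_mod_cast this)
  have q₂ : Q A₂ := root_apply H₂ x₂ w₂ hw₂n (by
    rw [← hA₂, ha₂, mk_fintype]
    have : Fintype.card ι₂ ≤ a₂ := by omega
    exact_mod_cast this)
  have q₃ : Q ↥(A₁ ⊔ A₂) := pair hQ A₁ A₂ fgA₁ fgA₂ (by
    rw [hb, ha₁, ha₂]
    have : b = a₁ + a₂ := by omega
    exact_mod_cast this) q₁ q₂
  refine hQ.sub K _ g (fun k => ?_) q₃
  obtain ⟨p, hp, hp0⟩ := (Algebra.IsAlgebraic.isAlgebraic (k : E) : IsAlgebraic K (k : E))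
  let ρ : K →+* g.fieldRange := (g.rangeRestrict : K →ₐ[Ω] g.range).toRingHom
  refine ⟨p.map ρ, (Polynomial.map_ne_zero_iff ρ.injective).2 hp, ?_⟩
  refine Subtype.ext ?_
  rw [Polynomial.aeval_def, Polynomial.eval₂_map]
  rw [Polynomial.aeval_def] at hp0
  have e1 := Polynomial.hom_eval₂ p ((algebraMap g.fieldRange ↥(A₁ ⊔ A₂)).comp ρ)
    ((A₁ ⊔ A₂).val : ↥(A₁ ⊔ A₂) →+* E) k
  refine e1.trans ?_
  have e2 : (((A₁ ⊔ A₂).val : ↥(A₁ ⊔ A₂) →+* E)).comp
      ((algebraMap g.fieldRange ↥(A₁ ⊔ A₂)).comp ρ) = algebraMap K E :=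
    RingHom.ext fun z => hg z
  rw [e2]
  exact hp0

theorem Root.equiv {ι ι' : Type} (e : ι ≃ ι') {n : ℕ} {F : MvPolynomial ι Ω} (h : Root Q n F) :
    Root Q n (MvPolynomial.rename e F) := by
  intro K _ _ X w hX h1 h2
  refine h K (X ∘ e) w ?_ ?_ ?_
  · rw [e.surjective.range_comp]
    exact hX
  · rw [MvPolynomial.aeval_rename] at h1
    exact h1
  · rw [mk_congr e]
    exact h2

/-- products over a finite set -/
theorem Root.prod (hQ : Closed Ω Q) {n : ℕ} (hn : 0 < n) : ∀ (m : ℕ) (r : Fin (m + 1) → ℕ)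
    (F : ∀ j, MvPolynomial (Fin (r j)) Ω), (∀ j, F j ≠ 0) → (∀ j, Root Q n (F j)) →
    Root Q n (∏ j, MvPolynomial.rename (Sigma.mk j) (F j) :
      MvPolynomial (Σ j : Fin (m + 1), Fin (r j)) Ω) := by
  intro m
  induction m with
  | zero =>
    intro r F _ h
    have h1 := (h 0).equiv (Q := Q) (Equiv.uniqueSigma (fun j : Fin 1 => Fin (r j))).symm
    rw [Fin.prod_univ_one]
    exact h1
  | succ m ih =>
    intro r F h0 h
    have h1 := ih (fun j => r j.castSucc) (fun j => F j.castSucc) (fun j => h0 j.castSucc)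
      (fun j => h j.castSucc)
    have hne : (∏ j : Fin (m + 1), MvPolynomial.rename (Sigma.mk j) (F j.castSucc) :
        MvPolynomial (Σ j : Fin (m + 1), Fin (r j.castSucc)) Ω) ≠ 0 := by
      refine Finset.prod_ne_zero_iff.2 fun j _ h2 => h0 j.castSucc ?_
      let ψ : Fin (r j.castSucc) → (Σ j : Fin (m + 1), Fin (r j.castSucc)) := fun i => ⟨j, i⟩
      have hψ : Function.Injective ψ := fun a b hab => by
        have h3 := (Sigma.mk.inj_iff.1 hab).2
        exact eq_of_heq h3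
      have h4 : MvPolynomial.rename ψ (F j.castSucc) = MvPolynomial.rename ψ 0 := by
        rw [map_zero]
        exact h2
      exact MvPolynomial.rename_injective ψ hψ h4
    have h2 := Root.mul hQ hn h1 (h (Fin.last (m + 1))) hne
    let f : (Σ j : Fin (m + 1), Fin (r j.castSucc)) ⊕ Fin (r (Fin.last (m + 1))) →
        Σ j : Fin (m + 1 + 1), Fin (r j) :=
      Sum.elim (fun x => ⟨x.1.castSucc, x.2⟩) (fun i => ⟨Fin.last (m + 1), i⟩)
    have hf : Function.Bijective f := by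
      constructor
      · rintro (⟨a, b⟩ | a) (⟨c, d⟩ | c) h
        · have e1 : a = c := by
            have := congrArg Sigma.fst h
            exact Fin.castSucc_injective _ this
          subst e1
          have e2 : b = d := eq_of_heq (Sigma.mk.inj h).2
          rw [e2]
        · have := congrArg Sigma.fst h
          exact absurd this (Fin.castSucc_lt_last a).ne
        · have := congrArg Sigma.fst h
          exact absurd this.symm (Fin.castSucc_lt_last c).ne
        · have e2 : a = c := eq_of_heq (Sigma.mk.inj h).2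
          rw [e2]
      · rintro ⟨j, i⟩
        induction j using Fin.lastCases with
        | last => exact ⟨Sum.inr i, rfl⟩
        | cast j => exact ⟨Sum.inl ⟨j, i⟩, rfl⟩
    have h3 := h2.equiv (Equiv.ofBijective f hf)
    rw [Fin.prod_univ_castSucc]
    simp only [map_mul, map_prod, MvPolynomial.rename_rename] at h3
    exact h3

end Pool.Agent.Helper48.KC
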