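import Pool.Agent.Helper48.KC.Join

/-! Sums of forms in disjoint sets of variables, and projective hypersurfaces. -/

set_option autoImplicit false

namespace Pool.Agent.Helper48.KC

open IntermediateField Cardinal

variable {Ω : Type} [Field Ω] {Q : ∀ (K : Type) [Field K] [Algebra Ω K], Prop}

/-- quasi-homogeneous polynomials of positive degree such that the function fields of `F = 1` are in
the class -/
structure Nice (Q : ∀ (K : Type) [Field K] [Algebra Ω K], Prop) {ι : Type}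
    (F : MvPolynomial ι Ω) : Prop where
  ne : F ≠ 0
  hom : ∃ (p : ι → ℕ) (d : ℕ), 0 < d ∧ F.IsWeightedHomogeneous p d
  fib : Fibre Q F

theorem Fibre.equiv {ι ι' : Type} (e : ι ≃ ι') {F : MvPolynomial ι Ω} (h : Fibre Q F) :
    Fibre Q (MvPolynomial.rename e F) := by
  intro K _ _ X hX h1 h2
  refine h K (X ∘ e) ?_ ?_ ?_
  · rw [e.surjective.range_comp]
    exact hX
  · rw [MvPolynomial.aeval_rename] at h1
    exact h1
  · rw [mk_congr e]
    exact h2

theorem weighted_rename {ι ι' : Type} {f : ι → ι'} (hf : Function.Injective f)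
    {F : MvPolynomial ι Ω} {p : ι → ℕ} {d : ℕ} (h : F.IsWeightedHomogeneous p d) (c : ℕ)
    (q : ι' → ℕ) (hq : ∀ i, q (f i) = c * p i) :
    (MvPolynomial.rename f F).IsWeightedHomogeneous q (c * d) := by
  intro m hm
  obtain ⟨m', rfl, hm'⟩ := MvPolynomial.coeff_rename_ne_zero f F m hm
  have h1 := h hm'
  rw [← h1, Finsupp.weight_apply, Finsupp.weight_apply, Finsupp.sum_mapDomain_index
    (fun _ => by simp) (fun _ _ _ => by simp [add_mul]), Finsupp.sum, Finsupp.sum, Finset.mul_sum]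
  refine Finset.sum_congr rfl fun i _ => ?_
  rw [hq, smul_eq_mul, smul_eq_mul]
  ring

theorem Nice.equiv {ι ι' : Type} (e : ι ≃ ι') {F : MvPolynomial ι Ω} (h : Nice Q F) :
    Nice Q (MvPolynomial.rename e F) := by
  refine ⟨fun h0 => h.ne (MvPolynomial.rename_injective e e.injective (by rw [h0, map_zero])), ?_,
    h.fib.equiv e⟩
  obtain ⟨p, d, hd, hF⟩ := h.hom
  refine ⟨p ∘ e.symm, d, hd, ?_⟩
  have h1 := weighted_rename e.injective hF 1 (p ∘ e.symm) (fun i => by simp)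
  rwa [one_mul] at h1

theorem rename_inl_ne {ι₁ ι₂ : Type} {F₁ : MvPolynomial ι₁ Ω} {F₂ : MvPolynomial ι₂ Ω}
    {p₂ : ι₂ → ℕ} {d₂ : ℕ} (h₂ : F₂.IsWeightedHomogeneous p₂ d₂) (hd₂ : 0 < d₂) (h : F₁ ≠ 0) :
    (MvPolynomial.rename Sum.inl F₁ + MvPolynomial.rename Sum.inr F₂ :
      MvPolynomial (ι₁ ⊕ ι₂) Ω) ≠ 0 := by
  intro h0
  let φ : MvPolynomial (ι₁ ⊕ ι₂) Ω →ₐ[Ω] MvPolynomial ι₁ Ω :=
    MvPolynomial.aeval (Sum.elim MvPolynomial.X fun _ => 0)
  have h1 := congrArg φ h0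
  rw [map_add, MvPolynomial.aeval_rename, MvPolynomial.aeval_rename, map_zero] at h1
  have e1 : MvPolynomial.aeval
      ((Sum.elim MvPolynomial.X fun _ => 0 : ι₁ ⊕ ι₂ → MvPolynomial ι₁ Ω) ∘ Sum.inl) F₁ = F₁ := by
    have : ((Sum.elim MvPolynomial.X fun _ => 0 : ι₁ ⊕ ι₂ → MvPolynomial ι₁ Ω) ∘ Sum.inl) =
      MvPolynomial.X := rfl
    rw [this, MvPolynomial.aeval_X_left_apply]
  have e2 : MvPolynomial.aeval
      ((Sum.elim MvPolynomial.X fun _ => 0 : ι₁ ⊕ ι₂ → MvPolynomial ι₁ Ω) ∘ Sum.inr) F₂ = 0 := by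
    have h3 : ((Sum.elim MvPolynomial.X fun _ => 0 : ι₁ ⊕ ι₂ → MvPolynomial ι₁ Ω) ∘ Sum.inr) =
      fun _ => 0 := rfl
    have h4 : MvPolynomial.aeval (fun _ : ι₂ => (0 : MvPolynomial ι₁ Ω)) F₂ =
        algebraMap Ω _ (MvPolynomial.constantCoeff F₂) := by
      have := MvPolynomial.aeval_zero' (S₁ := MvPolynomial ι₁ Ω) F₂
      exact this
    have h5 : MvPolynomial.constantCoeff F₂ = 0 := by
      by_contra hcon
      have h6 : Finsupp.weight p₂ (0 : ι₂ →₀ ℕ) = d₂ := h₂ hcon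
      rw [map_zero] at h6
      omega
    rw [h3, h4, h5, map_zero]
  rw [e1, e2, add_zero] at h1
  exact h h1

theorem Nice.add (hQ : Closed Ω Q) {ι₁ ι₂ : Type} [Fintype ι₁] [Fintype ι₂]
    {F₁ : MvPolynomial ι₁ Ω} {F₂ : MvPolynomial ι₂ Ω} (h₁ : Nice Q F₁) (h₂ : Nice Q F₂) :
    Nice Q (MvPolynomial.rename Sum.inl F₁ + MvPolynomial.rename Sum.inr F₂ :
      MvPolynomial (ι₁ ⊕ ι₂) Ω) := by
  obtain ⟨p₁, d₁, hd₁, hF₁⟩ := h₁.hom
  obtain ⟨p₂, d₂, hd₂, hF₂⟩ := h₂.hom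
  refine ⟨rename_inl_ne hF₂ hd₂ h₁.ne, ⟨Sum.elim (fun i => d₂ * p₁ i) (fun i => d₁ * p₂ i),
    d₁ * d₂, Nat.mul_pos hd₁ hd₂, ?_⟩, Fibre.add hQ hF₁ hF₂ hd₁ hd₂ h₁.ne h₂.ne h₁.fib h₂.fib⟩
  have e1 := weighted_rename (Sum.inl_injective (α := ι₁) (β := ι₂)) hF₁ d₂
    (Sum.elim (fun i => d₂ * p₁ i) (fun i => d₁ * p₂ i)) (fun i => rfl)
  have e2 := weighted_rename (Sum.inr_injective (α := ι₁) (β := ι₂)) hF₂ d₁
    (Sum.elim (fun i => d₂ * p₁ i) (fun i => d₁ * p₂ i)) (fun i => rfl)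
  rw [mul_comm d₂ d₁] at e1
  exact e1.add e2

/-- sums over a finite set -/
theorem Nice.sum (hQ : Closed Ω Q) : ∀ (m : ℕ) (n : Fin (m + 1) → ℕ)
    (F : ∀ j, MvPolynomial (Fin (n j)) Ω), (∀ j, Nice Q (F j)) →
    Nice Q (∑ j, MvPolynomial.rename (Sigma.mk j) (F j) :
      MvPolynomial (Σ j : Fin (m + 1), Fin (n j)) Ω) := by
  intro m
  induction m with
  | zero =>
    intro n F h
    have h1 := (h 0).equiv (Q := Q) (Equiv.uniqueSigma (fun j : Fin 1 => Fin (n j))).symm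
    rw [Fin.sum_univ_one]
    exact h1
  | succ m ih =>
    intro n F h
    have h1 := ih (fun j => n j.castSucc) (fun j => F j.castSucc) (fun j => h j.castSucc)
    have h2 := Nice.add hQ h1 (h (Fin.last (m + 1)))
    let f : (Σ j : Fin (m + 1), Fin (n j.castSucc)) ⊕ Fin (n (Fin.last (m + 1))) →
        Σ j : Fin (m + 1 + 1), Fin (n j) :=
      Sum.elim (fun x => ⟨x.1.castSucc, x.2⟩) (fun i => ⟨Fin.last (m + 1), i⟩)
    have hf : Function.Bijective f := by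
      constructor
      · rintro (⟨a, b⟩ | a) (⟨c, d⟩ | c) h
        · have e1 : a = c := by
            have := congrArg Sigma.fst h
            exact Fin.castSucc_injective _ this
          subst e1
          have e2 : b = d := eq_of_heq (Sigma.mk.inj h).2
          rw [e2]
        · have := congrArg Sigma.fst h
          exact absurd this (Fin.castSucc_lt_last a).ne
        · have := congrArg Sigma.fst h
          exact absurd this.symm (Fin.castSucc_lt_last c).ne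
        · have e2 : a = c := eq_of_heq (Sigma.mk.inj h).2
          rw [e2]
      · rintro ⟨j, i⟩
        induction j using Fin.lastCases with
        | last => exact ⟨Sum.inr i, rfl⟩
        | cast j => exact ⟨Sum.inl ⟨j, i⟩, rfl⟩
    have h3 := h2.equiv (Equiv.ofBijective f hf)
    rw [Fin.sum_univ_castSucc]
    simp only [map_add, map_sum, MvPolynomial.rename_rename] at h3
    exact h3

theorem hom_weighted {ι : Type} {F : MvPolynomial ι Ω} {d : ℕ} (h : F.IsHomogeneous d) :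
    F.IsWeightedHomogeneous (fun _ => 1) d := h

/-- **Projective hypersurfaces.** `K` is the function field of the hypersurface
`F₁(X) + F₂(Y) = 0` in the weighted projective space, with a coordinate of `Y` of weight one equal to
`1`. -/
theorem projective (hQ : Closed Ω Q) {ι₁ ι₂ : Type} [Fintype ι₁] [Fintype ι₂] [IsAlgClosed Ω]
    {F₁ : MvPolynomial ι₁ Ω} {F₂ : MvPolynomial ι₂ Ω} {p₁ : ι₁ → ℕ} {p₂ : ι₂ → ℕ} {d : ℕ}
    (hd : 0 < d) (h₁ : F₁.IsWeightedHomogeneous p₁ d) (h₂ : F₂.IsWeightedHomogeneous p₂ d)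
    (H₁ : Fibre Q F₁) (H₂ : Fibre Q F₂) (K : Type) [Field K] [Algebra Ω K]
    (X : ι₁ → K) (Y : ι₂ → K) (hX : adjoin Ω (Set.range X ∪ Set.range Y) = ⊤)
    (h0 : MvPolynomial.aeval X F₁ ≠ 0)
    (hrel : MvPolynomial.aeval X F₁ + MvPolynomial.aeval Y F₂ = 0) (j : ι₂)
    (hpj : p₂ j = 1) (hj : Y j = 1)
    (htr : #ι₁ + #ι₂ ≤ Algebra.trdeg Ω K + 2) : Q K := by
  let E := AlgebraicClosure K
  let x : ι₁ → E := fun i => algebraMap K E (X i)
  let y : ι₂ → E := fun i => algebraMap K E (Y i)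
  set v : E := MvPolynomial.aeval x F₁ with hv
  have hv0 : v ≠ 0 := by
    intro h
    apply h0
    have e1 : algebraMap K E (MvPolynomial.aeval X F₁) = v :=
      MvPolynomial.comp_aeval_apply (f := X) (IsScalarTower.toAlgHom Ω K E) F₁
    rw [h] at e1
    exact (algebraMap K E).injective (e1.trans (map_zero _).symm)
  have hv' : MvPolynomial.aeval y F₂ = -v := by
    have e1 := congrArg (IsScalarTower.toAlgHom Ω K E) hrel
    rw [map_add, map_zero, MvPolynomial.comp_aeval_apply, MvPolynomial.comp_aeval_apply] at e1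
    exact (neg_eq_of_add_eq_zero_right e1).symm
  obtain ⟨w, hw⟩ := IsAlgClosed.exists_pow_nat_eq v hd
  obtain ⟨z, hz⟩ := IsAlgClosed.exists_pow_nat_eq (-1 : Ω) hd
  have hz0 : z ≠ 0 := by
    rintro rfl
    rw [zero_pow hd.ne'] at hz
    exact neg_ne_zero.2 one_ne_zero hz.symm
  have hw0 : w ≠ 0 := by
    rintro rfl
    rw [zero_pow hd.ne'] at hw
    exact hv0 hw.symm
  set w' : E := algebraMap Ω E z * w with hw'
  have hw'0 : w' ≠ 0 := mul_ne_zero ((map_ne_zero _).2 hz0) hw0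
  have hw'd : w' ^ d = -v := by
    rw [hw', mul_pow, ← map_pow, hz, hw, map_neg, map_one, neg_one_mul]
  let x' : ι₁ → E := fun i => x i / w ^ p₁ i
  let y' : ι₂ → E := fun i => y i / w' ^ p₂ i
  have hx' : MvPolynomial.aeval x' F₁ = 1 := by
    have e1 := weighted_eval h₁ w x'
    have e2 : (fun i => w ^ p₁ i * x' i) = x := funext fun i => by
      show w ^ p₁ i * (x i / w ^ p₁ i) = x i
      rw [mul_div_cancel₀ _ (pow_ne_zero _ hw0)]
    rw [e2, ← hv, ← hw] at e1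
    have e3 : w ^ d * 1 = w ^ d * MvPolynomial.aeval x' F₁ := by rw [mul_one]; exact e1
    exact (mul_left_cancel₀ (pow_ne_zero _ hw0) e3).symm
  have hy' : MvPolynomial.aeval y' F₂ = 1 := by
    have e1 := weighted_eval h₂ w' y'
    have e2 : (fun i => w' ^ p₂ i * y' i) = y := funext fun i => by
      show w' ^ p₂ i * (y i / w' ^ p₂ i) = y i
      rw [mul_div_cancel₀ _ (pow_ne_zero _ hw'0)]
    rw [e2, hv', ← hw'd] at e1
    have e3 : w' ^ d * 1 = w' ^ d * MvPolynomial.aeval y' F₂ := by rw [mul_one]; exact e1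
    exact (mul_left_cancel₀ (pow_ne_zero _ hw'0) e3).symm
  set A₁ := adjoin Ω (Set.range x') with hA₁
  set A₂ := adjoin Ω (Set.range y') with hA₂
  have t₁ := trdeg_add_one_le x' (F₁ - 1) (sub_one_ne h₁ hd) (by
      rw [map_sub, map_one, hx', sub_self])
  have t₂ := trdeg_add_one_le y' (F₂ - 1) (sub_one_ne h₂ hd) (by
      rw [map_sub, map_one, hy', sub_self])
  rw [← hA₁, mk_fintype] at t₁
  rw [← hA₂, mk_fintype] at t₂
  rw [mk_fintype, mk_fintype] at htr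
  obtain ⟨a₁, ha₁, ha₁'⟩ := exists_nat_of_le t₁
  obtain ⟨a₂, ha₂, ha₂'⟩ := exists_nat_of_le t₂
  have s₁ : Algebra.trdeg Ω ↥(A₁ ⊔ A₂) ≤ ((a₁ + a₂ : ℕ) : Cardinal) := by
    refine (trdeg_sup_le A₁ A₂).trans ?_
    rw [ha₁, ha₂]
    norm_cast
  obtain ⟨b, hb, hb'⟩ := exists_nat_of_le' s₁
  have mw' : w' ∈ A₁ ⊔ A₂ := by
    have e1 : w'⁻¹ ∈ A₂ := by
      have e2 : y' j = w'⁻¹ := by
        show algebraMap K E (Y j) / w' ^ p₂ j = _
        rw [hj, hpj, pow_one, map_one, one_div]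
      rw [← e2]
      exact subset_adjoin _ _ ⟨j, rfl⟩
    have e3 := inv_mem e1
    rw [inv_inv] at e3
    exact (le_sup_right : A₂ ≤ A₁ ⊔ A₂) e3
  have mw : w ∈ A₁ ⊔ A₂ := by
    have e1 : w = algebraMap Ω E z⁻¹ * w' := by
      rw [hw', ← mul_assoc, ← map_mul, inv_mul_cancel₀ hz0, map_one, one_mul]
    rw [e1]
    exact mul_mem (IntermediateField.algebraMap_mem _ _) mw'
  have mx : ∀ i, x i ∈ A₁ ⊔ A₂ := fun i => by
    have e1 : x i = w ^ p₁ i * x' i := by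
      show x i = w ^ p₁ i * (x i / w ^ p₁ i)
      rw [mul_div_cancel₀ _ (pow_ne_zero _ hw0)]
    rw [e1]
    exact mul_mem (pow_mem mw _) ((le_sup_left : A₁ ≤ A₁ ⊔ A₂) (subset_adjoin _ _ ⟨i, rfl⟩))
  have my : ∀ i, y i ∈ A₁ ⊔ A₂ := fun i => by
    have e1 : y i = w' ^ p₂ i * y' i := by
      show y i = w' ^ p₂ i * (y i / w' ^ p₂ i)
      rw [mul_div_cancel₀ _ (pow_ne_zero _ hw'0)]
    rw [e1]
    exact mul_mem (pow_mem mw' _) ((le_sup_right : A₂ ≤ A₁ ⊔ A₂) (subset_adjoin _ _ ⟨i, rfl⟩))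
  have h3 : ∀ k : K, algebraMap K E k ∈ A₁ ⊔ A₂ := by
    intro k
    have hk : k ∈ adjoin Ω (Set.range X ∪ Set.range Y) := by
      rw [hX]
      exact mem_top
    have h3 : adjoin Ω (Set.range X ∪ Set.range Y) ≤
        (A₁ ⊔ A₂).comap (IsScalarTower.toAlgHom Ω K E) := by
      rw [adjoin_le_iff]
      rintro _ (⟨i, rfl⟩ | ⟨i, rfl⟩)
      · exact mx i
      · exact my i
    exact h3 hk
  let g : K →ₐ[Ω] ↥(A₁ ⊔ A₂) :=
    (IsScalarTower.toAlgHom Ω K E).codRestrict (A₁ ⊔ A₂).toSubalgebra h3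
  have key : Fintype.card ι₁ + Fintype.card ι₂ ≤ b + 2 := by
    have h8 : ((Fintype.card ι₁ + Fintype.card ι₂ : ℕ) : Cardinal) ≤ ((b + 2 : ℕ) : Cardinal) := by
      calc ((Fintype.card ι₁ + Fintype.card ι₂ : ℕ) : Cardinal)
          = (Fintype.card ι₁ : Cardinal) + (Fintype.card ι₂ : Cardinal) := by norm_cast
        _ ≤ Algebra.trdeg Ω K + 2 := htr
        _ ≤ Algebra.trdeg Ω ↥(A₁ ⊔ A₂) + 2 := by
            gcongr
            exact trdeg_le_of_injective g g.injective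
        _ = ((b + 2 : ℕ) : Cardinal) := by rw [hb]; norm_cast
    exact_mod_cast h8
  have fgA₁ : A₁.FG := fg_adjoin_of_finite (Set.finite_range _)
  have fgA₂ : A₂.FG := fg_adjoin_of_finite (Set.finite_range _)
  have q₁ : Q A₁ := fibre_apply H₁ x' hx' (by
    rw [← hA₁, ha₁, mk_fintype]
    have : Fintype.card ι₁ ≤ a₁ + 1 := by omega
    exact_mod_cast this)
  have q₂ : Q A₂ := fibre_apply H₂ y' hy' (by
    rw [← hA₂, ha₂, mk_fintype]
    have : Fintype.card ι₂ ≤ a₂ + 1 := by omega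
    exact_mod_cast this)
  have q₃ : Q ↥(A₁ ⊔ A₂) := pair hQ A₁ A₂ fgA₁ fgA₂ (by
    rw [hb, ha₁, ha₂]
    have : b = a₁ + a₂ := by omega
    exact_mod_cast this) q₁ q₂
  refine hQ.sub K _ g (fun k => ?_) q₃
  obtain ⟨p, hp, hp0⟩ := (Algebra.IsAlgebraic.isAlgebraic (k : E) : IsAlgebraic K (k : E))
  let ρ : K →+* g.fieldRange := (g.rangeRestrict : K →ₐ[Ω] g.range).toRingHom
  refine ⟨p.map ρ, (Polynomial.map_ne_zero_iff ρ.injective).2 hp, ?_⟩
  refine Subtype.ext ?_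
  rw [Polynomial.aeval_def, Polynomial.eval₂_map]
  rw [Polynomial.aeval_def] at hp0
  have e1 := Polynomial.hom_eval₂ p ((algebraMap g.fieldRange ↥(A₁ ⊔ A₂)).comp ρ)
    ((A₁ ⊔ A₂).val : ↥(A₁ ⊔ A₂) →+* E) k
  refine e1.trans ?_
  have e2 : (((A₁ ⊔ A₂).val : ↥(A₁ ⊔ A₂) →+* E)).comp
      ((algebraMap g.fieldRange ↥(A₁ ⊔ A₂)).comp ρ) = algebraMap K E :=
    RingHom.ext fun z => rfl
  rw [e2]
  exact hp0

end Pool.Agent.Helper48.KC
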