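import Pool.Agent.Helper75.TF.Kum
import Pool.Agent.Helper48.V9.Power
import Pool.Agent.Helper48.KC.Sum

/-! The surface `F = 1` for a ternary form `F` is a cyclic cover of the plane branched along the
curve `F = 0`. -/

set_option autoImplicit false

namespace Pool.Agent.Helper48.KC

open IntermediateField Cardinal

variable {Ω : Type} [Field Ω]

/-- The ring of polynomials is integrally closed. -/
theorem root_poly {K ι : Type} [Field K] [Algebra Ω K] (X : ι → K)
    (hX : AlgebraicIndependent Ω X) {g : K} (hg : g ∈ adjoin Ω (Set.range X)) {k : ℕ} (hk : 0 < k)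
    {f : MvPolynomial ι Ω} (h : g ^ k = MvPolynomial.aeval X f) :
    ∃ g' : MvPolynomial ι Ω, MvPolynomial.aeval X g' = g ∧ g' ^ k = f := by
  open scoped IntermediateField.algebraAdjoinAdjoin in
  have h0 : IsIntegrallyClosed (Algebra.adjoin Ω (Set.range X)) :=
    IsIntegrallyClosed.of_equiv (R := MvPolynomial ι Ω) hX.aevalEquiv.toRingEquiv
  let x : adjoin Ω (Set.range X) := ⟨g, hg⟩
  have hf : MvPolynomial.aeval X f ∈ Algebra.adjoin Ω (Set.range X) := by
    rw [Algebra.adjoin_range_eq_range_aeval]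
    exact ⟨f, rfl⟩
  have h1 : x ^ k = algebraMap (Algebra.adjoin Ω (Set.range X)) (adjoin Ω (Set.range X))
      ⟨MvPolynomial.aeval X f, hf⟩ := Subtype.ext h
  obtain ⟨y, hy⟩ := IsIntegrallyClosed.exists_algebraMap_eq_of_isIntegral_pow
    (R := Algebra.adjoin Ω (Set.range X)) (x := x) hk (by
      rw [h1]
      exact isIntegral_algebraMap)
  have h2 : (y : K) = g := congrArg Subtype.val hy
  have h3 : (y : K) ∈ (MvPolynomial.aeval (R := Ω) X).range := by
    rw [← Algebra.adjoin_range_eq_range_aeval]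
    exact y.2
  obtain ⟨g', hg'⟩ := h3
  have h4 : MvPolynomial.aeval X g' = g := by
    rw [← h2]
    exact hg'
  refine ⟨g', h4, hX ?_⟩
  rw [map_pow, h4, h]

/-- the substitution `X i ↦ X i * t ^ p i` -/
noncomputable def scale {ι : Type} (p : ι → ℕ) :
    MvPolynomial ι Ω →ₐ[Ω] Polynomial (MvPolynomial ι Ω) :=
  MvPolynomial.aeval fun i => Polynomial.C (MvPolynomial.X i) * Polynomial.X ^ p i

theorem scale_monomial {ι : Type} [Fintype ι] (p : ι → ℕ) (m : ι →₀ ℕ) (c : Ω) :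
    scale p (MvPolynomial.monomial m c) =
      Polynomial.C (MvPolynomial.monomial m c) * Polynomial.X ^ (∑ i, m i * p i) := by
  rw [scale, MvPolynomial.aeval_monomial, Finsupp.prod_fintype _ _ (fun _ => by simp)]
  simp only [mul_pow, Finset.prod_mul_distrib]
  have e1 : ∏ i, (Polynomial.X ^ p i : Polynomial (MvPolynomial ι Ω)) ^ m i =
      Polynomial.X ^ (∑ i, m i * p i) := by
    rw [← Finset.prod_pow_eq_pow_sum]
    refine Finset.prod_congr rfl fun i _ => ?_
    rw [← pow_mul, mul_comm]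
  rw [e1, ← mul_assoc]
  congr 1
  have e2 : (algebraMap Ω (Polynomial (MvPolynomial ι Ω))) c =
      Polynomial.C (MvPolynomial.C c) := rfl
  rw [e2, MvPolynomial.monomial_eq, Finsupp.prod_fintype _ _ (fun _ => by simp), map_mul,
    map_prod]
  simp only [map_pow]

theorem scale_coeff {ι : Type} [Fintype ι] (p : ι → ℕ) (g : MvPolynomial ι Ω) (m : ι →₀ ℕ) :
    MvPolynomial.coeff m ((scale p g).coeff (∑ i, m i * p i)) = MvPolynomial.coeff m g := by
  classical
  induction g using MvPolynomial.induction_on' with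
  | monomial m' c =>
    rw [scale_monomial, Polynomial.coeff_C_mul_X_pow]
    by_cases hm : m' = m
    · subst hm
      simp
    · rw [MvPolynomial.coeff_monomial, if_neg hm]
      split_ifs
      · rw [MvPolynomial.coeff_monomial, if_neg hm]
      · rw [MvPolynomial.coeff_zero]
  | add f g hf hg =>
    rw [map_add, Polynomial.coeff_add, MvPolynomial.coeff_add, hf, hg, MvPolynomial.coeff_add]

theorem le_natDegree_scale {ι : Type} [Fintype ι] (p : ι → ℕ) (g : MvPolynomial ι Ω)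
    (m : ι →₀ ℕ) (hm : m ∈ g.support) : ∑ i, m i * p i ≤ (scale p g).natDegree := by
  refine Polynomial.le_natDegree_of_ne_zero fun h0 => ?_
  have h1 := scale_coeff p g m
  rw [h0, MvPolynomial.coeff_zero] at h1
  exact MvPolynomial.mem_support_iff.1 hm h1.symm

/-- the degree of the equation in the affine coordinates -/
theorem natDegree_scale_le (a b : ℕ) {d : ℕ} {F : MvPolynomial (Fin 3) Ω}
    (hF : F.IsWeightedHomogeneous ![a, b, 1] d) :
    (scale ![a, b] (MvPolynomial.aeval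
      ![(MvPolynomial.X 0 : MvPolynomial (Fin 2) Ω), MvPolynomial.X 1, 1] F)).natDegree ≤ d := by
  rw [MvPolynomial.aeval_def, MvPolynomial.eval₂_eq', map_sum]
  refine Polynomial.natDegree_sum_le_of_forall_le _ _ fun m hm => ?_
  have h1 : Finsupp.weight ![a, b, 1] m = d := hF (MvPolynomial.mem_support_iff.1 hm)
  rw [Finsupp.weight_apply, Finsupp.sum_fintype _ _ (fun _ => by simp), Fin.sum_univ_three] at h1
  simp only [smul_eq_mul] at h1
  change m 0 * a + m 1 * b + m 2 * 1 = d at h1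
  rw [Fin.prod_univ_three]
  have h2 : (![(MvPolynomial.X 0 : MvPolynomial (Fin 2) Ω), MvPolynomial.X 1, 1] 0) =
      MvPolynomial.X 0 := rfl
  have h3 : (![(MvPolynomial.X 0 : MvPolynomial (Fin 2) Ω), MvPolynomial.X 1, 1] 1) =
      MvPolynomial.X 1 := rfl
  have h4 : (![(MvPolynomial.X 0 : MvPolynomial (Fin 2) Ω), MvPolynomial.X 1, 1] 2) = 1 := rfl
  have h5 : scale ![a, b] (MvPolynomial.X 0 : MvPolynomial (Fin 2) Ω) =
      Polynomial.C (MvPolynomial.X 0) * Polynomial.X ^ a := by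
    rw [scale, MvPolynomial.aeval_X]
    rfl
  have h6 : scale ![a, b] (MvPolynomial.X 1 : MvPolynomial (Fin 2) Ω) =
      Polynomial.C (MvPolynomial.X 1) * Polynomial.X ^ b := by
    rw [scale, MvPolynomial.aeval_X]
    rfl
  have h7 : scale ![a, b] (algebraMap Ω (MvPolynomial (Fin 2) Ω) (MvPolynomial.coeff m F)) =
      Polynomial.C (MvPolynomial.C (MvPolynomial.coeff m F)) := by
    rw [AlgHom.commutes]
    rfl
  rw [h2, h3, h4, one_pow, mul_one, map_mul, map_mul, map_pow, map_pow, h5, h6, h7, mul_pow,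
    mul_pow, ← pow_mul, ← pow_mul]
  have h8 : Polynomial.C (MvPolynomial.C (MvPolynomial.coeff m F)) *
      (Polynomial.C (MvPolynomial.X 0 : MvPolynomial (Fin 2) Ω) ^ m 0 * Polynomial.X ^ (a * m 0) *
        (Polynomial.C (MvPolynomial.X 1) ^ m 1 * Polynomial.X ^ (b * m 1))) =
      Polynomial.C (MvPolynomial.C (MvPolynomial.coeff m F) *
        (MvPolynomial.X 0 ^ m 0 * MvPolynomial.X 1 ^ m 1)) *
        Polynomial.X ^ (a * m 0 + b * m 1) := by
    rw [map_mul, map_mul, map_pow, map_pow, pow_add]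
    ring
  rw [h8]
  refine (Polynomial.natDegree_C_mul_X_pow_le _ _).trans ?_
  rw [← h1, mul_comm a, mul_comm b]
  exact Nat.le_add_right _ _

theorem trdeg_top_le {K : Type} [Field K] [Algebra Ω K] (B : IntermediateField Ω K)
    (h : Algebra.IsAlgebraic B K) : Algebra.trdeg Ω K ≤ Algebra.trdeg Ω B := by
  have h1 := trdeg_add_eq Ω B (A := K)
  rw [trdeg_eq_zero_iff.2 h, add_zero] at h1
  exact h1.ge

theorem range_pair {K : Type} (x y : K) : Set.range ![x, y] = {x, y, y} := by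
  ext z
  simp only [Matrix.range_cons, Matrix.range_empty, Set.union_empty, Set.singleton_union,
    Set.mem_insert_iff, Set.mem_singleton_iff]
  tauto

/-- the data of the cyclic cover `w ^ d = f(x, y)` of the plane -/
theorem root_rows [IsAlgClosed Ω] [CharZero Ω] {d : ℕ} (hd : 0 < d) {f : MvPolynomial (Fin 2) Ω}
    {K : Type} [Field K] [Algebra Ω K] (x y w : K) (hgen : adjoin Ω {x, y, w} = ⊤)
    (hwd : w ^ d = MvPolynomial.aeval ![x, y] f) (htr : 2 ≤ Algebra.trdeg Ω K) :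
    ∃ R : IntermediateField Ω K, FiniteDimensional R K ∧ IsGalois R K ∧
      (∀ g h : K ≃ₐ[R] K, g * h = h * g) ∧
      ∀ M : IntermediateField R K, ∃ (n k c : ℕ) (g : MvPolynomial (Fin 2) Ω) (x y w : M),
        d = n * c ∧ k ∣ n ∧ g ^ c = f ∧
        (∀ r : R, algebraMap R M r ∈ adjoin Ω {x, y}) ∧ adjoin Ω {x, y, w} = ⊤ ∧
        Module.finrank (adjoin Ω {x, y}) M = k ∧ w ^ k = MvPolynomial.aeval ![x, y] g := by
  obtain ⟨R, hR⟩ : ∃ R : IntermediateField Ω K, R = adjoin Ω {x, y, y} := ⟨_, rfl⟩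
  have hR' : R = adjoin Ω (Set.range ![x, y]) := by rw [hR, range_pair]
  have mx : x ∈ R := by
    rw [hR]
    exact subset_adjoin _ _ (by simp)
  have my : y ∈ R := by
    rw [hR]
    exact subset_adjoin _ _ (by simp)
  have haev : ∀ p : MvPolynomial (Fin 2) Ω, MvPolynomial.aeval ![x, y] p ∈ R := fun p => by
    rw [hR']
    apply algebra_adjoin_le_adjoin Ω
    rw [Algebra.adjoin_range_eq_range_aeval]
    exact ⟨p, rfl⟩
  have hwR : w ^ d ∈ R := by
    rw [hwd]
    exact haev f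
  have htop : adjoin R {w} = ⊤ := by
    rw [eq_top_iff]
    intro v _
    have h1 : adjoin Ω {x, y, w} ≤ (adjoin R {w}).restrictScalars Ω := by
      rw [adjoin_le_iff]
      rintro s (hs | hs | hs)
      · rw [hs]
        exact (adjoin R {w}).algebraMap_mem ⟨x, mx⟩
      · rw [hs]
        exact (adjoin R {w}).algebraMap_mem ⟨y, my⟩
      · rw [hs]
        exact mem_adjoin_simple_self R w
    exact h1 (by
      rw [hgen]
      exact mem_top)
  have hdΩ : (d : Ω) ≠ 0 := Nat.cast_ne_zero.2 hd.ne'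
  have : NeZero (d : Ω) := ⟨hdΩ⟩
  have : NeZero d := ⟨hd.ne'⟩
  obtain ⟨ζ, hζ⟩ : ∃ ζ : Ω, IsPrimitiveRoot ζ d :=
    HasEnoughRootsOfUnity.exists_primitiveRoot Ω d
  have hζR : IsPrimitiveRoot (algebraMap Ω R ζ) d :=
    hζ.map_of_injective (algebraMap Ω R).injective
  obtain ⟨hwn, hnd⟩ := Pool.Agent.Helper75.TF.kummer_deg hd hζR w ⟨⟨w ^ d, hwR⟩, rfl⟩ htop
  obtain ⟨n, hn⟩ : ∃ n, n = Module.finrank R K := ⟨_, rfl⟩
  rw [← hn] at hwn hnd
  have hwn' : w ^ n ∈ R := by
    obtain ⟨r, hr⟩ := hwn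
    rw [← hr]
    exact r.2
  obtain ⟨c, hc⟩ := hnd
  have hc0 : 0 < c := Nat.pos_of_ne_zero (by
    rintro rfl
    rw [mul_zero] at hc
    omega)
  have hn0 : 0 < n := Nat.pos_of_ne_zero (by
    rintro rfl
    rw [zero_mul] at hc
    omega)
  obtain ⟨hfd, hgal, hcomm, hM⟩ := Pool.Agent.Helper48.V9.kummer_fields R
    (Nat.cast_ne_zero.2 hn0.ne') hwn' htop hn.symm
  have hind : AlgebraicIndependent Ω ![x, y] := by
    refine algebraicIndependent_iff.2 fun P hP => by_contra fun hP0 => ?_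
    have h4 := trdeg_add_one_le (Ω := Ω) ![x, y] P hP0 hP
    rw [← hR', mk_fintype, Fintype.card_fin] at h4
    obtain ⟨m, hm, hm'⟩ := exists_nat_of_le h4
    have h5 := htr.trans (trdeg_top_le R inferInstance)
    rw [hm] at h5
    have h7 : 2 ≤ m := by exact_mod_cast h5
    omega
  obtain ⟨g, hg, hgc⟩ := root_poly ![x, y] hind (g := w ^ n) (by rw [← hR']; exact hwn') hc0
    (f := f) (by rw [← pow_mul, ← hc, hwd])
  refine ⟨R, hfd, hgal, hcomm, fun M => ?_⟩
  obtain ⟨k, m, hkm, hMw, hk⟩ := hM M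
  have hxM : x ∈ M := M.algebraMap_mem ⟨x, mx⟩
  have hyM : y ∈ M := M.algebraMap_mem ⟨y, my⟩
  have hwM : w ^ m ∈ M := by
    rw [hMw]
    exact mem_adjoin_simple_self _ _
  obtain ⟨g1, g2, g3⟩ := Pool.Agent.Helper73.SS.gens_of R hR M hMw hxM hyM hyM hwM
  have hs : ({(⟨x, hxM⟩ : M), ⟨y, hyM⟩, ⟨y, hyM⟩} : Set M) = {⟨x, hxM⟩, ⟨y, hyM⟩} := by simp
  refine ⟨n, k, c, g, ⟨x, hxM⟩, ⟨y, hyM⟩, ⟨w ^ m, hwM⟩, hc, ⟨m, hkm⟩, hgc, ?_, ?_, ?_, ?_⟩
  · rw [hs] at g1
    exact g1
  · rw [eq_top_iff, ← g3, adjoin_le_iff]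
    rintro s (rfl | rfl | rfl | rfl)
    · exact subset_adjoin _ _ (by simp)
    · exact subset_adjoin _ _ (by simp)
    · exact subset_adjoin _ _ (by simp)
    · exact subset_adjoin _ _ (by simp)
  · rw [← hs, Pool.Agent.Helper73.SS.finrank_of_range _ g1 g2, hk]
  · apply Subtype.ext
    let f : M →ₐ[Ω] K := M.val.restrictScalars Ω
    have h2 : f ∘ ![(⟨x, hxM⟩ : M), ⟨y, hyM⟩] = ![x, y] := by
      funext i
      fin_cases i
      · rfl
      · rfl
    have h3 : f (MvPolynomial.aeval ![(⟨x, hxM⟩ : M), ⟨y, hyM⟩] g) = w ^ n := by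
      rw [← AlgHom.comp_apply, MvPolynomial.comp_aeval]
      show MvPolynomial.aeval (f ∘ _) g = w ^ n
      rw [h2, hg]
    have h4 : (w ^ m) ^ k = w ^ n := by rw [← pow_mul, hkm, mul_comm m]
    exact h4.trans h3.symm

/-- the degree of a root -/
theorem support_le {a b c N : ℕ} (hc : 0 < c) {f g : MvPolynomial (Fin 2) Ω} (h : g ^ c = f)
    (hf : (scale ![a, b] f).natDegree ≤ N * c) : ∀ m ∈ g.support, a * m 0 + b * m 1 ≤ N := by
  intro m hm
  have h2 := le_natDegree_scale ![a, b] g m hm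
  rw [Fin.sum_univ_two] at h2
  change m 0 * a + m 1 * b ≤ _ at h2
  rw [← h, map_pow, Polynomial.natDegree_pow, mul_comm N c] at hf
  have h4 := Nat.le_of_mul_le_mul_left hf hc
  rw [mul_comm a, mul_comm b]
  exact h2.trans h4

/-- the degree of the substituted polynomial -/
theorem natDegree_scale_le' (a b : ℕ) {N : ℕ} {f : MvPolynomial (Fin 2) Ω}
    (hf : ∀ m ∈ f.support, a * m 0 + b * m 1 ≤ N) : (scale ![a, b] f).natDegree ≤ N := by
  rw [f.as_sum, map_sum]
  refine Polynomial.natDegree_sum_le_of_forall_le _ _ fun m hm => ?_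
  rw [scale_monomial]
  refine (Polynomial.natDegree_C_mul_X_pow_le _ _).trans ?_
  rw [Fin.sum_univ_two]
  change m 0 * a + m 1 * b ≤ N
  rw [mul_comm _ a, mul_comm _ b]
  exact hf m hm

/-- the data of the cyclic cover -/
theorem ternary_rows [IsAlgClosed Ω] [CharZero Ω] {a b d : ℕ} (hd : 0 < d)
    {F : MvPolynomial (Fin 3) Ω} (hF : F.IsWeightedHomogeneous ![a, b, 1] d) {K : Type} [Field K] [Algebra Ω K]
    (X : Fin 3 → K) (hX : adjoin Ω (Set.range X) = ⊤) (h1 : MvPolynomial.aeval X F = 1)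
    (htr : 2 ≤ Algebra.trdeg Ω K) :
    ∃ R : IntermediateField Ω K, FiniteDimensional R K ∧ IsGalois R K ∧
      (∀ g h : K ≃ₐ[R] K, g * h = h * g) ∧
      ∀ M : IntermediateField R K, ∃ (n k : ℕ) (g : MvPolynomial (Fin 2) Ω) (x y w : M),
        n ∣ d ∧ k ∣ n ∧ (∀ m ∈ g.support, a * m 0 + b * m 1 ≤ n) ∧
        (∀ r : R, algebraMap R M r ∈ adjoin Ω {x, y}) ∧ adjoin Ω {x, y, w} = ⊤ ∧
        Module.finrank (adjoin Ω {x, y}) M = k ∧ w ^ k = MvPolynomial.aeval ![x, y] g := by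
  -- the last coordinate is not zero
  have hX2 : X 2 ≠ 0 := by
    intro h0
    have e1 : MvPolynomial.aeval ![X 0, X 1]
        (MvPolynomial.aeval ![(MvPolynomial.X 0 : MvPolynomial (Fin 2) Ω), MvPolynomial.X 1, 0] F
          - 1) = 0 := by
      rw [map_sub, map_one, MvPolynomial.comp_aeval_apply]
      have e2 : (fun i => MvPolynomial.aeval ![X 0, X 1]
          (![(MvPolynomial.X 0 : MvPolynomial (Fin 2) Ω), MvPolynomial.X 1, 0] i)) = X := by
        funext i
        fin_cases i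
        · simp
        · simp
        · simp [h0]
      rw [e2, h1, sub_self]
    have e3 : (MvPolynomial.aeval ![(MvPolynomial.X 0 : MvPolynomial (Fin 2) Ω),
        MvPolynomial.X 1, 0] F - 1) ≠ 0 := by
      intro h2
      have h3 := congrArg (MvPolynomial.aeval (fun _ : Fin 2 => (0 : Ω))) h2
      rw [map_sub, map_one, MvPolynomial.comp_aeval_apply, map_zero] at h3
      have e4 : (fun i => MvPolynomial.aeval (fun _ : Fin 2 => (0 : Ω))
          (![(MvPolynomial.X 0 : MvPolynomial (Fin 2) Ω), MvPolynomial.X 1, 0] i)) =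
          fun i => (0 : Ω) ^ (![a, b, 1] i) * (fun _ => (0 : Ω)) i := by
        funext i
        fin_cases i
        · simp
        · simp
        · simp
      rw [e4, weighted_eval hF (0 : Ω) (fun _ => (0 : Ω)), zero_pow hd.ne',
        zero_mul, zero_sub, neg_eq_zero] at h3
      exact one_ne_zero h3
    have h4 := trdeg_add_one_le (Ω := Ω) ![X 0, X 1] _ e3 e1
    have h5 : adjoin Ω (Set.range ![X 0, X 1]) = ⊤ := by
      rw [eq_top_iff, ← hX, adjoin_le_iff]
      rintro _ ⟨i, rfl⟩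
      fin_cases i
      · exact subset_adjoin _ _ ⟨0, rfl⟩
      · exact subset_adjoin _ _ ⟨1, rfl⟩
      · show X 2 ∈ _
        rw [h0]
        exact zero_mem _
    rw [h5, mk_fintype, Fintype.card_fin] at h4
    have h6 : Algebra.trdeg Ω (⊤ : IntermediateField Ω K) = Algebra.trdeg Ω K :=
      topEquiv.trdeg_eq
    rw [h6] at h4
    obtain ⟨m, hm, hm'⟩ := exists_nat_of_le h4
    rw [hm] at htr
    have h7 : 2 ≤ m := by exact_mod_cast htr
    omega
  obtain ⟨x, hx⟩ : ∃ x, x = X 0 / X 2 ^ a := ⟨_, rfl⟩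
  obtain ⟨y, hy⟩ : ∃ y, y = X 1 / X 2 ^ b := ⟨_, rfl⟩
  obtain ⟨w, hw⟩ : ∃ w, w = (X 2)⁻¹ := ⟨_, rfl⟩
  obtain ⟨f, hf⟩ : ∃ f : MvPolynomial (Fin 2) Ω, f =
    MvPolynomial.aeval ![(MvPolynomial.X 0 : MvPolynomial (Fin 2) Ω), MvPolynomial.X 1, 1] F :=
    ⟨_, rfl⟩
  have hw0 : w ≠ 0 := by
    rw [hw]
    exact inv_ne_zero hX2
  have hwd : w ^ d = MvPolynomial.aeval ![x, y] f := by
    have e1 := weighted_eval hF (X 2) ![x, y, 1]
    have e2 : (fun i => X 2 ^ (![a, b, 1] i) * ![x, y, 1] i) = X := by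
      funext i
      fin_cases i
      · show X 2 ^ a * x = X 0
        rw [hx, mul_div_cancel₀ _ (pow_ne_zero _ hX2)]
      · show X 2 ^ b * y = X 1
        rw [hy, mul_div_cancel₀ _ (pow_ne_zero _ hX2)]
      · show X 2 ^ 1 * 1 = X 2
        rw [pow_one, mul_one]
    rw [e2, h1] at e1
    have e3 : MvPolynomial.aeval ![x, y] f = MvPolynomial.aeval ![x, y, 1] F := by
      rw [hf, MvPolynomial.comp_aeval_apply]
      congr 1
      congr 1
      funext i
      fin_cases i
      · simp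
      · simp
      · simp
    rw [e3, hw, inv_pow]
    exact inv_eq_of_mul_eq_one_right e1.symm
  have hgen : adjoin Ω {x, y, w} = ⊤ := by
    have mw : w ∈ adjoin Ω {x, y, w} := subset_adjoin _ _ (by simp)
    have m2 : X 2 ∈ adjoin Ω {x, y, w} := by
      have h2 : X 2 = w⁻¹ := by rw [hw, inv_inv]
      rw [h2]
      exact inv_mem mw
    rw [eq_top_iff, ← hX, adjoin_le_iff]
    rintro _ ⟨i, rfl⟩
    fin_cases i
    · have h2 : X 0 = x * X 2 ^ a := by rw [hx, div_mul_cancel₀ _ (pow_ne_zero _ hX2)]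
      show X 0 ∈ _
      rw [h2]
      exact mul_mem (subset_adjoin _ _ (by simp)) (pow_mem m2 _)
    · have h2 : X 1 = y * X 2 ^ b := by rw [hy, div_mul_cancel₀ _ (pow_ne_zero _ hX2)]
      show X 1 ∈ _
      rw [h2]
      exact mul_mem (subset_adjoin _ _ (by simp)) (pow_mem m2 _)
    · exact m2
  obtain ⟨R, h3, h4, h5, h6⟩ := root_rows hd x y w hgen hwd htr
  refine ⟨R, h3, h4, h5, fun M => ?_⟩
  obtain ⟨n, k, c, g, x, y, w, h7, h8, h9, h10, h11, h12, h13⟩ := h6 M
  have hc0 : 0 < c := Nat.pos_of_ne_zero (by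
    rintro rfl
    rw [mul_zero] at h7
    omega)
  have h14 := natDegree_scale_le a b hF
  rw [← hf, h7] at h14
  exact ⟨n, k, g, x, y, w, ⟨c, h7⟩, h8, support_le hc0 h9 h14, h10, h11, h12, h13⟩

end Pool.Agent.Helper48.KC
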