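import Mathlib

/-! Transcendence degrees of composites. -/

set_option autoImplicit false

namespace Pool.Agent.Helper48.KC

open IntermediateField Cardinal

variable {Ω : Type} [Field Ω]

theorem isAlgebraic_image {A M : Type} [Field A] [Algebra Ω A] [Field M] [Algebra Ω M]
    (φ : A →ₐ[Ω] M) (s : Set A) (a : A) (ha : IsAlgebraic (adjoin Ω s) a) :
    IsAlgebraic (adjoin Ω (φ '' s)) (φ a) := by
  have h1 : (adjoin Ω s).map φ = adjoin Ω (φ '' s) := adjoin_map Ω s φ
  let ψ : adjoin Ω s →+* adjoin Ω (φ '' s) :=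
    { toFun := fun x => ⟨φ x.1, by rw [← h1]; exact ⟨x.1, x.2, rfl⟩⟩
      map_one' := Subtype.ext (map_one φ)
      map_mul' := fun x y => Subtype.ext (map_mul φ _ _)
      map_zero' := Subtype.ext (map_zero φ)
      map_add' := fun x y => Subtype.ext (map_add φ _ _) }
  obtain ⟨p, hp, hp0⟩ := ha
  refine ⟨p.map ψ, (Polynomial.map_ne_zero_iff ψ.injective).2 hp, ?_⟩
  have h2 : Polynomial.aeval (φ a) (p.map ψ) = φ (Polynomial.aeval a p) := by
    rw [Polynomial.aeval_def, Polynomial.eval₂_map, Polynomial.aeval_def]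
    exact (Polynomial.hom_eval₂ p (algebraMap (adjoin Ω s) A) (φ : A →+* M) a).symm
  rw [h2, hp0, map_zero]

theorem trdeg_le_of_alg {M : Type} [Field M] [Algebra Ω M] (u : Set M)
    (h : ∀ m : M, IsAlgebraic (adjoin Ω u) m) : Algebra.trdeg Ω M ≤ #u := by
  open scoped IntermediateField.algebraAdjoinAdjoin in
  have h1 : Algebra.IsAlgebraic (adjoin Ω u) M := ⟨h⟩
  have h2 : Algebra.IsAlgebraic (Algebra.adjoin Ω u) M :=
    (IsFractionRing.comap_isAlgebraic_iff (A := Algebra.adjoin Ω u) (K := adjoin Ω u)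
      (C := M)).2 h1
  exact Algebra.IsAlgebraic.trdeg_le_cardinalMk Ω u

variable {E : Type} [Field E] [Algebra Ω E]

theorem trdeg_sup_le (A B : IntermediateField Ω E) :
    Algebra.trdeg Ω ↥(A ⊔ B) ≤ Algebra.trdeg Ω A + Algebra.trdeg Ω B := by
  obtain ⟨s, hs⟩ := exists_isTranscendenceBasis Ω A
  obtain ⟨t, ht⟩ := exists_isTranscendenceBasis Ω B
  have hs' := hs.isAlgebraic_field
  have ht' := ht.isAlgebraic_field
  rw [Subtype.range_coe] at hs' ht'
  let φ : A →ₐ[Ω] ↥(A ⊔ B) := inclusion le_sup_left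
  let ψ : B →ₐ[Ω] ↥(A ⊔ B) := inclusion le_sup_right
  set u : Set ↥(A ⊔ B) := φ '' s ∪ ψ '' t with hu
  have h1 : ∀ m : ↥(A ⊔ B), IsAlgebraic (adjoin Ω u) m := by
    let F : IntermediateField Ω ↥(A ⊔ B) := (algebraicClosure (adjoin Ω u) ↥(A ⊔ B)).restrictScalars Ω
    have hF : ∀ m, m ∈ F ↔ IsAlgebraic (adjoin Ω u) m := fun m => by
      rw [mem_restrictScalars, mem_algebraicClosure_iff]
    have hA : ∀ a : A, φ a ∈ F := fun a => by
      rw [hF]
      have h2 := isAlgebraic_image φ s a (hs'.isAlgebraic a)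
      have h3 : adjoin Ω (φ '' s) ≤ adjoin Ω u := adjoin.mono _ _ _ Set.subset_union_left
      obtain ⟨p, hp, hp0⟩ := h2
      refine ⟨p.map (inclusion h3).toRingHom,
        (Polynomial.map_ne_zero_iff (inclusion h3).toRingHom.injective).2 hp, ?_⟩
      rw [Polynomial.aeval_def, Polynomial.eval₂_map]
      rw [Polynomial.aeval_def] at hp0
      exact hp0
    have hB : ∀ b : B, ψ b ∈ F := fun a => by
      rw [hF]
      have h2 := isAlgebraic_image ψ t a (ht'.isAlgebraic a)
      have h3 : adjoin Ω (ψ '' t) ≤ adjoin Ω u := adjoin.mono _ _ _ Set.subset_union_right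
      obtain ⟨p, hp, hp0⟩ := h2
      refine ⟨p.map (inclusion h3).toRingHom,
        (Polynomial.map_ne_zero_iff (inclusion h3).toRingHom.injective).2 hp, ?_⟩
      rw [Polynomial.aeval_def, Polynomial.eval₂_map]
      rw [Polynomial.aeval_def] at hp0
      exact hp0
    have h4 : A ⊔ B ≤ F.map (A ⊔ B).val := by
      refine sup_le (fun a ha => ?_) fun b hb => ?_
      · exact ⟨φ ⟨a, ha⟩, hA ⟨a, ha⟩, rfl⟩
      · exact ⟨ψ ⟨b, hb⟩, hB ⟨b, hb⟩, rfl⟩
    intro m
    obtain ⟨m', hm', hm⟩ := h4 m.2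
    have h5 : m' = m := Subtype.ext hm
    rw [← h5]
    exact (hF m').1 hm'
  refine (trdeg_le_of_alg u h1).trans ((mk_union_le _ _).trans ?_)
  rw [← hs.cardinalMk_eq_trdeg, ← ht.cardinalMk_eq_trdeg]
  exact add_le_add mk_image_le mk_image_le

theorem trdeg_adjoin_le {ι : Type} (X : ι → E) :
    Algebra.trdeg Ω (adjoin Ω (Set.range X)) ≤ #ι := by
  let Y : ι → adjoin Ω (Set.range X) := fun i => ⟨X i, subset_adjoin _ _ ⟨i, rfl⟩⟩
  have h0 : adjoin Ω (Set.range Y) = ⊤ := by
    have h1 : (adjoin Ω (Set.range Y)).map (adjoin Ω (Set.range X)).val =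
        (⊤ : IntermediateField Ω (adjoin Ω (Set.range X))).map (adjoin Ω (Set.range X)).val := by
      rw [adjoin_map, ← Set.range_comp]
      have h2 : (adjoin Ω (Set.range X)).val ∘ Y = X := rfl
      rw [h2, ← AlgHom.fieldRange_eq_map, fieldRange_val]
    exact map_injective _ h1
  refine (trdeg_le_of_alg (Set.range Y) fun m => ?_).trans mk_range_le
  have hm : m ∈ adjoin Ω (Set.range Y) := by
    rw [h0]
    exact mem_top
  exact isAlgebraic_algebraMap (⟨m, hm⟩ : adjoin Ω (Set.range Y))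

/-- a relation drops the transcendence degree -/
theorem trdeg_add_one_le {ι : Type} [Finite ι] (X : ι → E) (P : MvPolynomial ι Ω) (hP : P ≠ 0)
    (h : MvPolynomial.aeval X P = 0) :
    Algebra.trdeg Ω (adjoin Ω (Set.range X)) + 1 ≤ #ι := by
  let Y : ι → adjoin Ω (Set.range X) := fun i => ⟨X i, subset_adjoin _ _ ⟨i, rfl⟩⟩
  have h0 : adjoin Ω (Set.range Y) = ⊤ := by
    have h1 : (adjoin Ω (Set.range Y)).map (adjoin Ω (Set.range X)).val =
        (⊤ : IntermediateField Ω (adjoin Ω (Set.range X))).map (adjoin Ω (Set.range X)).val := by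
      rw [adjoin_map, ← Set.range_comp]
      have h2 : (adjoin Ω (Set.range X)).val ∘ Y = X := rfl
      rw [h2, ← AlgHom.fieldRange_eq_map, fieldRange_val]
    exact map_injective _ h1
  have h1 : Algebra.trdeg Ω (adjoin Ω (Set.range X)) < #ι := by
    by_contra hcon
    rw [not_lt] at hcon
    open scoped IntermediateField.algebraAdjoinAdjoin in
    have h2 : Algebra.IsAlgebraic (adjoin Ω (Set.range Y)) (adjoin Ω (Set.range X)) :=
      ⟨fun m => by
        have hm : m ∈ adjoin Ω (Set.range Y) := by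
          rw [h0]
          exact mem_top
        exact isAlgebraic_algebraMap (⟨m, hm⟩ : adjoin Ω (Set.range Y))⟩
    have h3 : Algebra.IsAlgebraic (Algebra.adjoin Ω (Set.range Y)) (adjoin Ω (Set.range X)) :=
      (IsFractionRing.comap_isAlgebraic_iff (A := Algebra.adjoin Ω (Set.range Y))
        (K := adjoin Ω (Set.range Y)) (C := adjoin Ω (Set.range X))).2 h2
    have h4 := Algebra.IsAlgebraic.isTranscendenceBasis_of_le_trdeg_of_finite Ω Y hcon
    have h5 : MvPolynomial.aeval Y P = 0 := by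
      refine Subtype.ext ?_
      have h6 : (adjoin Ω (Set.range X)).val (MvPolynomial.aeval Y P) = MvPolynomial.aeval X P := by
        exact MvPolynomial.comp_aeval_apply (f := Y) (adjoin Ω (Set.range X)).val P
      exact h6.trans h
    exact hP (h4.1.eq_zero_of_aeval_eq_zero P h5)
  obtain ⟨n, hn⟩ := lt_aleph0.1 (mk_lt_aleph0 (α := ι))
  rw [hn] at h1 ⊢
  obtain ⟨m, hm⟩ := lt_aleph0.1 (h1.trans (natCast_lt_aleph0 (n := n)))
  rw [hm] at h1 ⊢
  have h2 : m < n := by exact_mod_cast h1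
  exact_mod_cast h2

end Pool.Agent.Helper48.KC
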